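import Mathlib
import Pool.Agent.H376R2.MR.Selw
import Pool.Agent.W301.SS.Sieve

/-! Selberg's weights supported on the integers coprime to a given squarefree number. -/

set_option autoImplicit false

namespace Pool.Agent.K4H3.PG
open Finset
open scoped ArithmeticFunction.Moebius
open Pool.Agent.H376R2.MR (sw_g sw_g_nonneg sw_g_one sw_g_mul sw_coprime sw_phi_g sw_sum sw_G sw_G_pos
  sw_G_ge sw_moebius_sum sw_lcm)
open Pool.Agent.W301.SS (mv DD)

/-- `μ²(m)/φ(m)` for `m` coprime to `F` -/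
noncomputable def gF (F m : ℕ) : ℝ := if m.Coprime F then sw_g m else 0

variable {F : ℕ}

lemma gF_nonneg (m : ℕ) : 0 ≤ gF F m := by
  unfold gF; split_ifs
  · exact sw_g_nonneg m
  · exact le_rfl

lemma gF_one : gF F 1 = 1 := by
  unfold gF; rw [if_pos (Nat.coprime_one_left F), sw_g_one]

lemma gF_mul {a b : ℕ} (h : Nat.Coprime a b) : gF F (a * b) = gF F a * gF F b := by
  unfold gF
  rw [sw_g_mul h]
  by_cases ha : a.Coprime F
  · by_cases hb : b.Coprime F
    · rw [if_pos (Nat.Coprime.mul_left ha hb), if_pos ha, if_pos hb]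
    · rw [if_neg (fun h2 => hb (Nat.Coprime.coprime_mul_left h2)), if_neg hb, mul_zero]
  · rw [if_neg (fun h2 => ha (Nat.Coprime.coprime_mul_right h2)), if_neg ha, zero_mul]

lemma gF_eq {d : ℕ} (h : d.Coprime F) : gF F d = sw_g d := by unfold gF; rw [if_pos h]

/-- the total mass -/
noncomputable def GF (F D : ℕ) : ℝ := ∑ n ∈ Icc 1 D, gF F n

lemma GF_pos {D : ℕ} (hD : 1 ≤ D) : 0 < GF F D := by
  have h1 : gF F 1 ≤ GF F D :=
    Finset.single_le_sum (f := gF F) (fun i _ => gF_nonneg i) (Finset.mem_Icc.2 ⟨le_rfl, hD⟩)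
  rw [gF_one] at h1
  linarith

/-- the key bound for `|l d| ≤ 1` -/
theorem gF_key (D d : ℕ) (hd : Squarefree d) (hdF : d.Coprime F) :
    (d : ℝ) * ∑ m ∈ (Icc 1 D).filter (fun m => d ∣ m), gF F m ≤ GF F D := by
  have hd0 : 0 < d := Nat.pos_of_ne_zero hd.ne_zero
  set T : Finset ℕ := (Icc 1 D).filter (fun m => d ∣ m ∧ Squarefree m) with hT
  have h1 : ∑ m ∈ (Icc 1 D).filter (fun m => d ∣ m), gF F m = ∑ m ∈ T, gF F m := by
    symm
    apply Finset.sum_subset
    · intro m hm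
      rw [hT, Finset.mem_filter] at hm
      exact Finset.mem_filter.2 ⟨hm.1, hm.2.1⟩
    · intro m hm hmT
      rw [Finset.mem_filter] at hm
      have : ¬ Squarefree m := fun hs => hmT (Finset.mem_filter.2 ⟨hm.1, hm.2, hs⟩)
      unfold gF sw_g
      rw [if_neg this]; simp
  have hdk : ∀ k ∈ d.divisors, k.Coprime F := fun k hk =>
    Nat.Coprime.coprime_dvd_left (Nat.dvd_of_mem_divisors hk) hdF
  have h2 : ∀ m ∈ T, (d : ℝ) * gF F m = ∑ k ∈ d.divisors, gF F (k * (m / d)) := by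
    intro m hm
    rw [hT, Finset.mem_filter] at hm
    obtain ⟨_, ⟨c, rfl⟩, hs⟩ := hm
    have hcop := sw_coprime hs
    rw [Nat.mul_div_cancel_left c hd0, gF_mul hcop]
    have e1 : ∀ k ∈ d.divisors, gF F (k * c) = sw_g k * gF F c := by
      intro k hk
      rw [gF_mul (Nat.Coprime.coprime_dvd_left (Nat.dvd_of_mem_divisors hk) hcop), gF_eq (hdk k hk)]
    rw [Finset.sum_congr rfl e1, ← Finset.sum_mul, gF_eq hdF]
    have e2 := sw_sum hd
    have e3 := sw_phi_g hd
    calc (d : ℝ) * (sw_g d * gF F c) =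
        ((Nat.totient d : ℝ) * ∑ k ∈ d.divisors, sw_g k) * (sw_g d * gF F c) := by rw [e2]
      _ = ((Nat.totient d : ℝ) * sw_g d) * ((∑ k ∈ d.divisors, sw_g k) * gF F c) := by ring
      _ = _ := by rw [e3, one_mul]
  rw [h1, Finset.mul_sum, Finset.sum_congr rfl h2, ← Finset.sum_product']
  have hinj : Set.InjOn (fun p : ℕ × ℕ => p.2 * (p.1 / d)) (T ×ˢ d.divisors : Finset (ℕ × ℕ)) := by
    rintro ⟨m, k⟩ hp ⟨m', k'⟩ hp' heq
    rw [Finset.mem_coe, Finset.mem_product, hT, Finset.mem_filter] at hp hp'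
    obtain ⟨⟨_, ⟨c, hc⟩, hs⟩, hk⟩ := hp
    obtain ⟨⟨_, ⟨c', hc'⟩, hs'⟩, hk'⟩ := hp'
    simp only at hc hc' hs hs' hk hk' heq
    subst hc
    subst hc'
    rw [Nat.mul_div_cancel_left c hd0, Nat.mul_div_cancel_left c' hd0] at heq
    have hkd := Nat.dvd_of_mem_divisors hk
    have hkd' := Nat.dvd_of_mem_divisors hk'
    have g1 : (k * c).gcd d = k := by
      rw [Nat.Coprime.gcd_mul_right_cancel k (sw_coprime hs).symm]
      exact Nat.gcd_eq_left hkd
    have g2 : (k' * c').gcd d = k' := by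
      rw [Nat.Coprime.gcd_mul_right_cancel k' (sw_coprime hs').symm]
      exact Nat.gcd_eq_left hkd'
    have hkk : k = k' := by rw [← g1, ← g2, heq]
    subst hkk
    have hk0 : 0 < k := Nat.pos_of_mem_divisors hk
    have hcc : c = c' := Nat.eq_of_mul_eq_mul_left hk0 heq
    subst hcc
    rfl
  have h3 : ∑ p ∈ T ×ˢ d.divisors, gF F (p.2 * (p.1 / d)) =
      ∑ n ∈ (T ×ˢ d.divisors).image (fun p : ℕ × ℕ => p.2 * (p.1 / d)), gF F n := by
    rw [Finset.sum_image hinj]
  rw [h3]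
  apply Finset.sum_le_sum_of_subset_of_nonneg
  · intro n hn
    obtain ⟨⟨m, k⟩, hp, rfl⟩ := Finset.mem_image.1 hn
    rw [Finset.mem_product, hT, Finset.mem_filter, Finset.mem_Icc] at hp
    obtain ⟨⟨⟨hm1, hmD⟩, ⟨c, hc⟩, hs⟩, hk⟩ := hp
    simp only at hm1 hmD hc hs hk ⊢
    subst hc
    rw [Nat.mul_div_cancel_left c hd0, Finset.mem_Icc]
    have hk0 : 0 < k := Nat.pos_of_mem_divisors hk
    have hkd : k ≤ d := Nat.divisor_le hk
    have hc0 : 0 < c := by
      rcases Nat.eq_zero_or_pos c with h0 | h0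
      · rw [h0, mul_zero] at hm1; omega
      · exact h0
    exact ⟨Nat.mul_pos hk0 hc0, (Nat.mul_le_mul_right c hkd).trans hmD⟩
  · intro n _ _
    exact gF_nonneg n

/-- the mass loses at most a factor `F / φ(F)` -/
theorem GF_ge (hF : Squarefree F) (D : ℕ) (hD : 1 ≤ D) :
    Real.log D ≤ ((F : ℝ) / Nat.totient F) * GF F D := by
  have hF0 : 0 < F := Nat.pos_of_ne_zero hF.ne_zero
  have h1 := sw_G_ge D hD
  refine h1.trans ?_
  have h2 : sw_G D ≤ (∑ k ∈ F.divisors, sw_g k) * GF F D := by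
    unfold sw_G GF
    rw [sum_mul_sum, ← sum_product']
    set S : Finset ℕ := (Icc 1 D).filter (fun n => Squarefree n) with hS
    have e1 : ∑ n ∈ Icc 1 D, sw_g n = ∑ n ∈ S, sw_g n := by
      symm
      apply Finset.sum_subset (filter_subset _ _)
      intro m hm hmT
      have : ¬ Squarefree m := fun hs => hmT (Finset.mem_filter.2 ⟨hm, hs⟩)
      unfold sw_g
      rw [if_neg this]
    rw [e1]
    have hfac : ∀ n ∈ S, ∃ m, n = Nat.gcd n F * m ∧ Nat.Coprime (Nat.gcd n F) m ∧ m.Coprime F ∧ 1 ≤ m := by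
      intro n hn
      rw [hS, mem_filter, mem_Icc] at hn
      obtain ⟨⟨hn1, hnD⟩, hs⟩ := hn
      have hg0 : 0 < Nat.gcd n F := Nat.gcd_pos_of_pos_left _ (by omega)
      obtain ⟨m, hm⟩ := Nat.gcd_dvd_left n F
      have hcop : Nat.Coprime (Nat.gcd n F) m := sw_coprime (by rw [← hm]; exact hs)
      refine ⟨m, hm, hcop, ?_, ?_⟩
      · rw [Nat.coprime_iff_gcd_eq_one]
        have h3 : Nat.gcd m F ∣ Nat.gcd n F :=
          Nat.dvd_gcd ((Nat.gcd_dvd_left m F).trans (by rw [hm]; exact Nat.dvd_mul_left _ _)) (Nat.gcd_dvd_right m F)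
        have h4 : Nat.gcd m F ∣ Nat.gcd (Nat.gcd n F) m := Nat.dvd_gcd h3 (Nat.gcd_dvd_left m F)
        rw [hcop] at h4
        exact Nat.dvd_one.1 h4
      · rcases Nat.eq_zero_or_pos m with h | h
        · rw [h, mul_zero] at hm; omega
        · exact h
    have e2 : ∀ n ∈ S, sw_g n = sw_g (Nat.gcd n F) * gF F (n / Nat.gcd n F) := by
      intro n hn
      obtain ⟨m, hm, hcop, hmF, hm1⟩ := hfac n hn
      have hg0 : 0 < Nat.gcd n F := by
        rw [hS, mem_filter, mem_Icc] at hn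
        exact Nat.gcd_pos_of_pos_left _ (by omega)
      have hdiv : n / Nat.gcd n F = m := Nat.div_eq_of_eq_mul_right hg0 hm
      rw [hdiv, gF_eq hmF, ← sw_g_mul hcop, ← hm]
    rw [sum_congr rfl e2]
    have hinj : Set.InjOn (fun n : ℕ => (Nat.gcd n F, n / Nat.gcd n F)) (S : Set ℕ) := by
      intro a ha b hb hab
      have h3 : Nat.gcd a F = Nat.gcd b F := congrArg Prod.fst hab
      have h4 : a / Nat.gcd a F = b / Nat.gcd b F := congrArg Prod.snd hab
      have h5 := Nat.div_mul_cancel (Nat.gcd_dvd_left a F)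
      have h6 := Nat.div_mul_cancel (Nat.gcd_dvd_left b F)
      rw [← h5, ← h6, h4, h3]
    have e3 : ∑ n ∈ S, sw_g (Nat.gcd n F) * gF F (n / Nat.gcd n F) =
        ∑ z ∈ S.image (fun n : ℕ => (Nat.gcd n F, n / Nat.gcd n F)), sw_g z.1 * gF F z.2 := by
      rw [sum_image hinj]
    rw [e3]
    apply sum_le_sum_of_subset_of_nonneg
    · intro z hz
      rw [mem_image] at hz
      obtain ⟨n, hn, rfl⟩ := hz
      have hn' := hn
      rw [hS, mem_filter, mem_Icc] at hn'
      obtain ⟨m, hm, hcop, hmF, hm1⟩ := hfac n hn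
      have hg0 : 0 < Nat.gcd n F := Nat.gcd_pos_of_pos_left _ (by omega)
      have hdiv : n / Nat.gcd n F = m := Nat.div_eq_of_eq_mul_right hg0 hm
      rw [mem_product, Nat.mem_divisors, mem_Icc]
      refine ⟨⟨Nat.gcd_dvd_right n F, hF0.ne'⟩, ?_, ?_⟩
      · show 1 ≤ n / Nat.gcd n F
        rw [hdiv]; exact hm1
      · exact (Nat.div_le_self _ _).trans hn'.1.2
    · intro z _ _
      exact mul_nonneg (sw_g_nonneg _) (gF_nonneg _)
  refine h2.trans (le_of_eq ?_)
  congr 1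
  have e := sw_sum hF
  have hphi : (0 : ℝ) < Nat.totient F := by exact_mod_cast Nat.totient_pos.2 hF0
  rw [eq_div_iff hphi.ne', mul_comm]
  exact e

/-- the weights -/
noncomputable def lF (F D d : ℕ) : ℝ :=
  (d : ℝ) * (μ d : ℝ) * (GF F D)⁻¹ * ∑ m ∈ (Icc 1 D).filter (fun m => d ∣ m), gF F m

theorem lF_Y (D r : ℕ) (hr : r ∈ Icc 1 D) :
    ∑ d ∈ Icc 1 D, (if r ∣ d then lF F D d / d else 0) = (μ r : ℝ) * gF F r * (GF F D)⁻¹ := by
  have h1 : ∀ d ∈ Icc 1 D, (if r ∣ d then lF F D d / d else 0) =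
      ∑ m ∈ Icc 1 D, (GF F D)⁻¹ * (gF F m * (if r ∣ d ∧ d ∣ m then (μ d : ℝ) else 0)) := by
    intro d hd
    rw [Finset.mem_Icc] at hd
    have hd0 : (d : ℝ) ≠ 0 := by
      have : 0 < d := hd.1
      exact_mod_cast this.ne'
    by_cases hrd : r ∣ d
    · rw [if_pos hrd]
      unfold lF
      rw [Finset.sum_filter, mul_assoc, mul_assoc, mul_div_assoc,
        mul_comm ((μ d : ℝ)) _, mul_assoc, Finset.sum_mul, Finset.mul_sum, Finset.sum_div,
        Finset.mul_sum]
      refine Finset.sum_congr rfl fun m _ => ?_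
      by_cases hdm : d ∣ m
      · rw [if_pos hdm, if_pos ⟨hrd, hdm⟩]
        field_simp
      · rw [if_neg hdm, if_neg (fun h => hdm h.2)]
        simp
    · rw [if_neg hrd]
      symm
      apply Finset.sum_eq_zero
      intro m _
      rw [if_neg (fun h => hrd h.1)]
      simp
  rw [Finset.sum_congr rfl h1, Finset.sum_comm]
  have h2 : ∀ m ∈ Icc 1 D, ∑ d ∈ Icc 1 D,
      (GF F D)⁻¹ * (gF F m * (if r ∣ d ∧ d ∣ m then (μ d : ℝ) else 0)) =
      if m = r then (GF F D)⁻¹ * (gF F r * (μ r : ℝ)) else 0 := by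
    intro m hm
    rw [← Finset.mul_sum, ← Finset.mul_sum]
    by_cases hs : Squarefree m
    · rw [sw_moebius_sum D r m hr hm hs]
      by_cases hmr : m = r
      · rw [if_pos hmr, if_pos hmr, hmr]
      · rw [if_neg hmr, if_neg hmr]
        simp
    · have hg : gF F m = 0 := by
        unfold gF sw_g
        rw [if_neg hs]; simp
      rw [hg, zero_mul, mul_zero]
      by_cases hmr : m = r
      · rw [if_pos hmr, ← hmr, hg]; simp
      · rw [if_neg hmr]
  rw [Finset.sum_congr rfl h2, Finset.sum_ite_eq' (Icc 1 D) r, if_pos hr]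
  ring

theorem lF_form (D : ℕ) (hD : 1 ≤ D) :
    ∑ d ∈ Icc 1 D, ∑ e ∈ Icc 1 D, lF F D d * lF F D e / (Nat.lcm d e : ℝ) = (GF F D)⁻¹ := by
  have hG := GF_pos (F := F) hD
  have h1 : ∀ d ∈ Icc 1 D, ∀ e ∈ Icc 1 D, lF F D d * lF F D e / (Nat.lcm d e : ℝ) =
      ∑ r ∈ Icc 1 D, (Nat.totient r : ℝ) * ((if r ∣ d then lF F D d / d else 0) *
        (if r ∣ e then lF F D e / e else 0)) := by
    intro d hd e he
    rw [div_eq_mul_one_div, sw_lcm D d e hd he, Finset.mul_sum]
    refine Finset.sum_congr rfl fun r _ => ?_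
    split_ifs <;> ring
  have h2 : ∑ d ∈ Icc 1 D, ∑ e ∈ Icc 1 D, lF F D d * lF F D e / (Nat.lcm d e : ℝ) =
      ∑ r ∈ Icc 1 D, (Nat.totient r : ℝ) *
        (∑ d ∈ Icc 1 D, (if r ∣ d then lF F D d / d else 0)) ^ 2 := by
    calc ∑ d ∈ Icc 1 D, ∑ e ∈ Icc 1 D, lF F D d * lF F D e / (Nat.lcm d e : ℝ)
        = ∑ d ∈ Icc 1 D, ∑ e ∈ Icc 1 D, ∑ r ∈ Icc 1 D, (Nat.totient r : ℝ) *
          ((if r ∣ d then lF F D d / d else 0) * (if r ∣ e then lF F D e / e else 0)) :=
          Finset.sum_congr rfl fun d hd => Finset.sum_congr rfl fun e he => h1 d hd e he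
      _ = ∑ r ∈ Icc 1 D, ∑ d ∈ Icc 1 D, ∑ e ∈ Icc 1 D, (Nat.totient r : ℝ) *
          ((if r ∣ d then lF F D d / d else 0) * (if r ∣ e then lF F D e / e else 0)) := by
          rw [Finset.sum_comm]
          rw [Finset.sum_congr rfl fun e _ => Finset.sum_comm]
          rw [Finset.sum_comm]
          exact Finset.sum_congr rfl fun r _ => Finset.sum_comm
      _ = _ := by
          refine Finset.sum_congr rfl fun r _ => ?_
          rw [sq, Finset.sum_mul_sum, Finset.mul_sum]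
          refine Finset.sum_congr rfl fun d _ => ?_
          rw [Finset.mul_sum]
  rw [h2]
  have h3 : ∀ r ∈ Icc 1 D, (Nat.totient r : ℝ) *
        (∑ d ∈ Icc 1 D, (if r ∣ d then lF F D d / d else 0)) ^ 2 =
        gF F r * ((GF F D)⁻¹) ^ 2 := by
    intro r hr
    rw [lF_Y D r hr]
    by_cases hs : Squarefree r
    · by_cases hc : r.Coprime F
      · have e1 := sw_phi_g hs
        rw [gF_eq hc]
        have e2 : ((μ r : ℤ) : ℝ) ^ 2 = 1 := by
          have := ArithmeticFunction.moebius_sq_eq_one_of_squarefree hs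
          exact_mod_cast this
        calc (Nat.totient r : ℝ) * ((μ r : ℝ) * sw_g r * (GF F D)⁻¹) ^ 2 =
            ((μ r : ℝ) ^ 2) * ((Nat.totient r : ℝ) * sw_g r) * (sw_g r * ((GF F D)⁻¹) ^ 2) := by ring
          _ = _ := by rw [e1, e2, one_mul, one_mul]
      · have hg : gF F r = 0 := by unfold gF; rw [if_neg hc]
        rw [hg]
        ring
    · have hg : gF F r = 0 := by
        unfold gF sw_g
        rw [if_neg hs]; simp
      rw [hg]
      ring
  rw [Finset.sum_congr rfl h3, ← Finset.sum_mul]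
  show GF F D * ((GF F D)⁻¹) ^ 2 = (GF F D)⁻¹
  field_simp

lemma lF_zero (D d : ℕ) (h : ¬ d.Coprime F) : lF F D d = 0 := by
  unfold lF
  have : ∑ m ∈ (Icc 1 D).filter (fun m => d ∣ m), gF F m = 0 := by
    apply sum_eq_zero
    intro m hm
    rw [mem_filter] at hm
    unfold gF
    rw [if_neg]
    intro hc
    exact h (Nat.Coprime.coprime_dvd_left hm.2 hc)
  rw [this, mul_zero]

/-- Selberg's weights supported on the integers coprime to `F` -/
theorem selF (hF : Squarefree F) (D : ℕ) (hD : 3 ≤ D) : ∃ l : ℕ → ℝ, l 1 = 1 ∧ (∀ d, |l d| ≤ 1) ∧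
    (∀ d, ¬ d.Coprime F → l d = 0) ∧ 0 ≤ mv l D ∧
    mv l D ≤ ((F : ℝ) / Nat.totient F) / Real.log D := by
  have hD1 : 1 ≤ D := by omega
  have hG := GF_pos (F := F) hD1
  have e : mv (lF F D) D = (GF F D)⁻¹ := by
    rw [← lF_form D hD1]
    unfold mv DD
    rw [sum_product]
  refine ⟨lF F D, ?_, ?_, fun d h => lF_zero D d h, by rw [e]; positivity, ?_⟩
  · unfold lF
    have : (Icc 1 D).filter (fun m => 1 ∣ m) = Icc 1 D :=
      Finset.filter_true_of_mem (fun m _ => one_dvd m)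
    rw [this]
    show ((1 : ℕ) : ℝ) * ((μ 1 : ℤ) : ℝ) * (GF F D)⁻¹ * GF F D = 1
    rw [ArithmeticFunction.moebius_apply_one]
    push_cast
    field_simp
  · intro d
    by_cases hc : d.Coprime F
    · by_cases hs : Squarefree d
      · have h1 := gF_key D d hs hc
        have hnn : 0 ≤ ∑ m ∈ (Icc 1 D).filter (fun m => d ∣ m), gF F m :=
          Finset.sum_nonneg fun m _ => gF_nonneg m
        have h2 : |((μ d : ℤ) : ℝ)| = 1 := by
          have := ArithmeticFunction.moebius_sq_eq_one_of_squarefree hs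
          have h3 : ((μ d : ℤ) : ℝ) ^ 2 = 1 := by exact_mod_cast this
          rw [← sq_abs] at h3
          nlinarith [abs_nonneg ((μ d : ℤ) : ℝ)]
        unfold lF
        rw [abs_mul, abs_mul, abs_mul, h2, abs_of_nonneg (Nat.cast_nonneg d), mul_one,
          abs_of_pos (inv_pos.2 hG), abs_of_nonneg hnn]
        calc (d : ℝ) * (GF F D)⁻¹ * ∑ m ∈ (Icc 1 D).filter (fun m => d ∣ m), gF F m =
            (GF F D)⁻¹ * ((d : ℝ) * ∑ m ∈ (Icc 1 D).filter (fun m => d ∣ m), gF F m) := by ring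
          _ ≤ (GF F D)⁻¹ * GF F D := mul_le_mul_of_nonneg_left h1 (inv_pos.2 hG).le
          _ = 1 := inv_mul_cancel₀ hG.ne'
      · unfold lF
        rw [ArithmeticFunction.moebius_eq_zero_of_not_squarefree hs]
        simp
    · rw [lF_zero D d hc]; simp
  · rw [e]
    have hlog : 0 < Real.log D := Real.log_pos (by exact_mod_cast (by omega : 1 < D))
    have h1 := GF_ge hF D hD1
    rw [le_div_iff₀ hlog, inv_mul_le_iff₀ hG]
    linarith

end Pool.Agent.K4H3.PG
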