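import Mathlib
import Pool.Agent.K4H3.CT.C3

/-! The large sieve inequality in dimension two for random sums of vectors. -/

set_option autoImplicit false

namespace Pool.Agent.K4H3.PG
open Finset
open Pool.Agent.H807R2.Dav
open Pool.Agent.Helper112 (lsSep lsD lsD_fract lsD_bound lsD_norm_neg ls_expand ls_conj_ee ls_ee_add ls_norm_ee
  ls_sum_inv_sq_inj lsD_zero)
open Pool.Agent.K4H3.CT

/-! ### the row sum -/

lemma cell_not_sep {K : ℕ} (hK : 1 ≤ K) {a b : ℝ}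
    (h : ⌊(K : ℝ) * Int.fract a⌋₊ = ⌊(K : ℝ) * Int.fract b⌋₊) : ¬ lsSep K (b - a) := by
  intro hsp
  have hK0 : (0 : ℝ) < K := by exact_mod_cast hK
  set t := Int.fract a with ht
  set t' := Int.fract b with ht'
  have e0 : 0 ≤ t := Int.fract_nonneg _
  have e0' : 0 ≤ t' := Int.fract_nonneg _
  have e1 : ((⌊(K : ℝ) * t⌋₊ : ℕ) : ℝ) ≤ K * t := Nat.floor_le (by positivity)
  have e2 : (K : ℝ) * t < (⌊(K : ℝ) * t⌋₊ : ℕ) + 1 := Nat.lt_floor_add_one _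
  have e3 : ((⌊(K : ℝ) * t'⌋₊ : ℕ) : ℝ) ≤ K * t' := Nat.floor_le (by positivity)
  have e4 : (K : ℝ) * t' < (⌊(K : ℝ) * t'⌋₊ : ℕ) + 1 := Nat.lt_floor_add_one _
  rw [h] at e1 e2
  have e5 : (K : ℝ) * (t' - t) < 1 := by linarith
  have e6 : -1 < (K : ℝ) * (t' - t) := by linarith
  have e7 : t' - t < 1 / K := by
    rw [lt_div_iff₀ hK0]
    linarith
  have e8 : -(1 / (K : ℝ)) < t' - t := by
    rw [neg_lt, lt_div_iff₀ hK0]
    linarith
  have e9 : b - a = (t' - t) + ((⌊b⌋ - ⌊a⌋ : ℤ) : ℝ) := by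
    have a1 := Int.fract_add_floor a
    have a2 := Int.fract_add_floor b
    rw [← ht] at a1
    rw [← ht'] at a2
    push_cast
    linarith
  have e10 : Int.fract (b - a) = Int.fract (t' - t) := by
    rw [e9, Int.fract_add_intCast]
  unfold lsSep at hsp
  rw [e10] at hsp
  rcases le_or_gt 0 (t' - t) with h | h
  · have : Int.fract (t' - t) = t' - t := by
      rw [Int.fract_eq_self]
      refine ⟨h, ?_⟩
      have : 1 / (K : ℝ) ≤ 1 := by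
        rw [div_le_one hK0]
        exact_mod_cast hK
      linarith
    rw [this] at hsp
    linarith [hsp.1]
  · have : Int.fract (t' - t) = t' - t + 1 := by
      rw [Int.fract_eq_iff]
      refine ⟨?_, ?_, ⟨-1, by push_cast; ring⟩⟩
      · have : 1 / (K : ℝ) ≤ 1 := by
          rw [div_le_one hK0]
          exact_mod_cast hK
        linarith
      · linarith
    rw [this] at hsp
    linarith [hsp.2]

/-- the bound for the squared Dirichlet kernel on a cell -/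
noncomputable def wc (M K i : ℕ) : ℝ := (if i = 0 then (M : ℝ) ^ 2 else 0) +
  (if K - 1 - i = 0 then (M : ℝ) ^ 2 else 0) +
  1 / 4 * (K : ℝ) ^ 2 * (1 / (i : ℝ) ^ 2 + 1 / ((K - 1 - i : ℕ) : ℝ) ^ 2)

lemma wc_nonneg (M K i : ℕ) : 0 ≤ wc M K i := by unfold wc; positivity

lemma sum_inv_sq_range (K : ℕ) : ∑ i ∈ range K, 1 / (i : ℝ) ^ 2 ≤ 2 := by
  have h : ∑ i ∈ range K, 1 / (i : ℝ) ^ 2 = ∑ i ∈ (range K).filter (fun i => i ≠ 0), 1 / (i : ℝ) ^ 2 := by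
    rw [sum_filter]
    apply sum_congr rfl; intro i _
    split_ifs with h
    · rfl
    · push Not at h; rw [h]; simp
  rw [h]
  exact ls_sum_inv_sq_inj _ (fun i => i) (fun i hi => by rw [mem_filter] at hi; omega) (fun a _ b _ h => h)

lemma sum_wc (M K : ℕ) (hK : 1 ≤ K) : ∑ i ∈ range K, wc M K i ≤ 2 * (M : ℝ) ^ 2 + (K : ℝ) ^ 2 := by
  unfold wc
  rw [sum_add_distrib, sum_add_distrib, ← mul_sum, sum_add_distrib]
  have h1 : ∑ i ∈ range K, (if i = 0 then (M : ℝ) ^ 2 else 0) = (M : ℝ) ^ 2 := by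
    rw [sum_ite_eq' (range K) 0, if_pos (mem_range.2 hK)]
  have h2 : ∑ i ∈ range K, (if K - 1 - i = 0 then (M : ℝ) ^ 2 else 0) = (M : ℝ) ^ 2 := by
    rw [sum_range_reflect (fun i => if i = 0 then (M : ℝ) ^ 2 else 0) K, h1]
  have h3 : ∑ i ∈ range K, 1 / ((K - 1 - i : ℕ) : ℝ) ^ 2 = ∑ i ∈ range K, 1 / (i : ℝ) ^ 2 :=
    sum_range_reflect (fun i : ℕ => 1 / (i : ℝ) ^ 2) K
  rw [h1, h2, h3]
  have h4 := sum_inv_sq_range K
  nlinarith [sq_nonneg (K : ℝ)]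

lemma lsD_norm_le (M : ℕ) (t : ℝ) : ‖lsD M t‖ ≤ M := by
  unfold lsD
  refine (norm_sum_le _ _).trans ?_
  simp [ls_norm_ee]

lemma lsD_cell (M K : ℕ) (hK : 1 ≤ K) (t : ℝ) : ‖lsD M t‖ ^ 2 ≤ wc M K ⌊(K : ℝ) * Int.fract t⌋₊ := by
  have hK0 : (0 : ℝ) < K := by exact_mod_cast hK
  rw [← lsD_fract]
  set f := Int.fract t with hf
  have f0 : 0 ≤ f := Int.fract_nonneg _
  have f1 : f < 1 := Int.fract_lt_one _
  set i := ⌊(K : ℝ) * f⌋₊ with hi
  have i1 : (i : ℝ) ≤ K * f := Nat.floor_le (by positivity)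
  have i2 : (K : ℝ) * f < i + 1 := Nat.lt_floor_add_one _
  have hiK : i < K := by
    have : (i : ℝ) < K := by nlinarith
    exact_mod_cast this
  have hM := lsD_norm_le M f
  have hM2 : ‖lsD M f‖ ^ 2 ≤ (M : ℝ) ^ 2 := pow_le_pow_left₀ (norm_nonneg _) hM 2
  have n1 : 0 ≤ 1 / 4 * (K : ℝ) ^ 2 * (1 / (i : ℝ) ^ 2 + 1 / ((K - 1 - i : ℕ) : ℝ) ^ 2) := by positivity
  unfold wc
  by_cases h0 : i = 0
  · rw [if_pos h0]
    have : (0 : ℝ) ≤ if K - 1 - i = 0 then (M : ℝ) ^ 2 else 0 := by positivity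
    linarith
  · by_cases h1 : K - 1 - i = 0
    · rw [if_pos h1]
      have : (0 : ℝ) ≤ if i = 0 then (M : ℝ) ^ 2 else 0 := by positivity
      linarith
    · rw [if_neg h0, if_neg h1, zero_add, zero_add]
      have p0 : (0 : ℝ) < i := by exact_mod_cast Nat.pos_of_ne_zero h0
      have p1 : (0 : ℝ) < ((K - 1 - i : ℕ) : ℝ) := by exact_mod_cast Nat.pos_of_ne_zero h1
      have e1 : ((K - 1 - i : ℕ) : ℝ) = (K : ℝ) - 1 - i := by
        rw [Nat.cast_sub (by omega), Nat.cast_sub hK]; simp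
      have hfpos : 0 < f := by
        have : 0 < (K : ℝ) * f := lt_of_lt_of_le p0 i1
        exact (mul_pos_iff_of_pos_left hK0).1 this
      have b := lsD_bound M f hfpos f1
      have g1 : 1 / f ^ 2 ≤ (K : ℝ) ^ 2 * (1 / (i : ℝ) ^ 2) := by
        rw [mul_one_div, div_le_div_iff₀ (by positivity) (by positivity), one_mul, ← mul_pow]
        exact pow_le_pow_left₀ p0.le i1 2
      have g2 : 1 / (1 - f) ^ 2 ≤ (K : ℝ) ^ 2 * (1 / ((K - 1 - i : ℕ) : ℝ) ^ 2) := by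
        have : 0 < 1 - f := by linarith
        rw [mul_one_div, div_le_div_iff₀ (by positivity) (by positivity), one_mul, ← mul_pow]
        apply pow_le_pow_left₀ p1.le
        rw [e1]
        nlinarith
      calc ‖lsD M f‖ ^ 2 ≤ 1 / 4 * (1 / f ^ 2 + 1 / (1 - f) ^ 2) := b
        _ ≤ 1 / 4 * ((K : ℝ) ^ 2 * (1 / (i : ℝ) ^ 2) + (K : ℝ) ^ 2 * (1 / ((K - 1 - i : ℕ) : ℝ) ^ 2)) := by
            gcongr
        _ = _ := by ring

section dual
variable {ι : Type*} [DecidableEq ι] (R : Finset ι) (ξ : ι → ℝ × ℝ) (K : ℕ)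

/-- separation in the maximum norm of the torus -/
def Sep2 : Prop := ∀ r ∈ R, ∀ s ∈ R, r ≠ s → lsSep K ((ξ s).1 - (ξ r).1) ∨ lsSep K ((ξ s).2 - (ξ r).2)

variable {R ξ K}

lemma rowsum2 (hK : 1 ≤ K) (M : ℕ) (hsep : Sep2 R ξ K) (r : ι) :
    ∑ s ∈ R, ‖lsD M ((ξ s).1 - (ξ r).1)‖ ^ 2 * ‖lsD M ((ξ s).2 - (ξ r).2)‖ ^ 2 ≤
      (2 * (M : ℝ) ^ 2 + (K : ℝ) ^ 2) ^ 2 := by
  set c1 : ι → ℕ := fun s => ⌊(K : ℝ) * Int.fract ((ξ s).1 - (ξ r).1)⌋₊ with hc1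
  set c2 : ι → ℕ := fun s => ⌊(K : ℝ) * Int.fract ((ξ s).2 - (ξ r).2)⌋₊ with hc2
  have hK0 : (0 : ℝ) < K := by exact_mod_cast hK
  have hlt : ∀ x : ℝ, ⌊(K : ℝ) * Int.fract x⌋₊ < K := by
    intro x
    have f0 : 0 ≤ Int.fract x := Int.fract_nonneg _
    have f1 : Int.fract x < 1 := Int.fract_lt_one _
    have i1 : ((⌊(K : ℝ) * Int.fract x⌋₊ : ℕ) : ℝ) ≤ K * Int.fract x := Nat.floor_le (by positivity)
    have : ((⌊(K : ℝ) * Int.fract x⌋₊ : ℕ) : ℝ) < K := by nlinarith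
    exact_mod_cast this
  have hinj : Set.InjOn (fun s => (c1 s, c2 s)) (R : Set ι) := by
    intro s hs s' hs' heq
    by_contra hne
    have h1 : c1 s = c1 s' := congrArg Prod.fst heq
    have h2 : c2 s = c2 s' := congrArg Prod.snd heq
    have n1 := cell_not_sep hK h1
    have n2 := cell_not_sep hK h2
    have e1 : (ξ s').1 - (ξ r).1 - ((ξ s).1 - (ξ r).1) = (ξ s').1 - (ξ s).1 := by ring
    have e2 : (ξ s').2 - (ξ r).2 - ((ξ s).2 - (ξ r).2) = (ξ s').2 - (ξ s).2 := by ring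
    rw [e1] at n1
    rw [e2] at n2
    rcases hsep s hs s' hs' hne with h | h
    · exact n1 h
    · exact n2 h
  calc ∑ s ∈ R, ‖lsD M ((ξ s).1 - (ξ r).1)‖ ^ 2 * ‖lsD M ((ξ s).2 - (ξ r).2)‖ ^ 2 ≤
        ∑ s ∈ R, wc M K (c1 s) * wc M K (c2 s) := by
          apply sum_le_sum; intro s _
          exact mul_le_mul (lsD_cell M K hK _) (lsD_cell M K hK _) (by positivity) (wc_nonneg _ _ _)
    _ = ∑ z ∈ R.image (fun s => (c1 s, c2 s)), wc M K z.1 * wc M K z.2 := by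
          rw [sum_image hinj]
    _ ≤ ∑ z ∈ range K ×ˢ range K, wc M K z.1 * wc M K z.2 := by
          apply sum_le_sum_of_subset_of_nonneg
          · intro z hz
            rw [mem_image] at hz
            obtain ⟨s, _, rfl⟩ := hz
            rw [mem_product, mem_range, mem_range]
            exact ⟨hlt _, hlt _⟩
          · intro z _ _
            exact mul_nonneg (wc_nonneg _ _ _) (wc_nonneg _ _ _)
    _ = (∑ i ∈ range K, wc M K i) ^ 2 := by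
          rw [sq, sum_mul_sum, sum_product]
    _ ≤ _ := by
          apply pow_le_pow_left₀ (sum_nonneg fun i _ => wc_nonneg _ _ _) (sum_wc M K hK)

omit [DecidableEq ι] in
lemma expand2 (M : ℕ) (c : ι → ℂ) :
    ((∑ k ∈ range M, ∑ k' ∈ range M, ∑ j ∈ range M, ∑ j' ∈ range M,
      ‖∑ r ∈ R, (c r * Pool.Agent.Helper112.ee (((k : ℝ) - k') * (ξ r).2)) *
        Pool.Agent.Helper112.ee (((j : ℝ) - j') * (ξ r).1)‖ ^ 2 : ℝ) : ℂ) =
    ∑ r ∈ R, ∑ s ∈ R, c r * (starRingEnd ℂ) (c s) *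
      (lsD M ((ξ r).1 - (ξ s).1) * (starRingEnd ℂ) (lsD M ((ξ r).1 - (ξ s).1))) *
      (lsD M ((ξ r).2 - (ξ s).2) * (starRingEnd ℂ) (lsD M ((ξ r).2 - (ξ s).2))) := by
  rw [Complex.ofReal_sum]
  have h1 : ∀ k ∈ range M, ((∑ k' ∈ range M, ∑ j ∈ range M, ∑ j' ∈ range M,
      ‖∑ r ∈ R, (c r * Pool.Agent.Helper112.ee (((k : ℝ) - k') * (ξ r).2)) *
        Pool.Agent.Helper112.ee (((j : ℝ) - j') * (ξ r).1)‖ ^ 2 : ℝ) : ℂ) =
      ∑ k' ∈ range M, ∑ r ∈ R, ∑ s ∈ R,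
        (c r * (starRingEnd ℂ) (c s) *
        (lsD M ((ξ r).1 - (ξ s).1) * (starRingEnd ℂ) (lsD M ((ξ r).1 - (ξ s).1)))) *
        (Pool.Agent.Helper112.ee (k * ((ξ r).2 - (ξ s).2)) *
          (starRingEnd ℂ) (Pool.Agent.Helper112.ee (k' * ((ξ r).2 - (ξ s).2)))) := by
    intro k _
    rw [Complex.ofReal_sum]
    apply sum_congr rfl; intro k' _
    rw [ls_expand R (fun r => (ξ r).1) M]
    apply sum_congr rfl; intro r _
    apply sum_congr rfl; intro s _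
    rw [map_mul, ls_conj_ee, ls_conj_ee]
    have e : Pool.Agent.Helper112.ee (((k : ℝ) - k') * (ξ r).2) *
        Pool.Agent.Helper112.ee (-(((k : ℝ) - k') * (ξ s).2)) =
        Pool.Agent.Helper112.ee (k * ((ξ r).2 - (ξ s).2)) * Pool.Agent.Helper112.ee (-(k' * ((ξ r).2 - (ξ s).2))) := by
      rw [← ls_ee_add, ← ls_ee_add]
      congr 1; ring
    rw [← e]; ring
  rw [sum_congr rfl h1]
  rw [Finset.sum_congr rfl fun k _ => Finset.sum_comm]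
  rw [Finset.sum_comm]
  apply sum_congr rfl; intro r _
  rw [Finset.sum_congr rfl fun k _ => Finset.sum_comm]
  rw [Finset.sum_comm]
  apply sum_congr rfl; intro s _
  have e2 : lsD M ((ξ r).2 - (ξ s).2) * (starRingEnd ℂ) (lsD M ((ξ r).2 - (ξ s).2)) =
      ∑ k ∈ range M, ∑ k' ∈ range M, Pool.Agent.Helper112.ee (k * ((ξ r).2 - (ξ s).2)) *
          (starRingEnd ℂ) (Pool.Agent.Helper112.ee (k' * ((ξ r).2 - (ξ s).2))) := by
    unfold lsD
    rw [map_sum, sum_mul_sum]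
  rw [e2, mul_sum]
  apply sum_congr rfl; intro k _
  rw [mul_sum]

lemma double2 (hK : 1 ≤ K) (M : ℕ) (hsep : Sep2 R ξ K) (c : ι → ℂ) :
    ∑ k ∈ range M, ∑ k' ∈ range M, ∑ j ∈ range M, ∑ j' ∈ range M,
      ‖∑ r ∈ R, (c r * Pool.Agent.Helper112.ee (((k : ℝ) - k') * (ξ r).2)) *
        Pool.Agent.Helper112.ee (((j : ℝ) - j') * (ξ r).1)‖ ^ 2 ≤
      (2 * (M : ℝ) ^ 2 + (K : ℝ) ^ 2) ^ 2 * ∑ r ∈ R, ‖c r‖ ^ 2 := by
  set X : ℝ := ∑ k ∈ range M, ∑ k' ∈ range M, ∑ j ∈ range M, ∑ j' ∈ range M,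
      ‖∑ r ∈ R, (c r * Pool.Agent.Helper112.ee (((k : ℝ) - k') * (ξ r).2)) *
        Pool.Agent.Helper112.ee (((j : ℝ) - j') * (ξ r).1)‖ ^ 2 with hX
  have hX0 : 0 ≤ X := by positivity
  have h1 : X = ‖(X : ℂ)‖ := by
    rw [Complex.norm_real, Real.norm_eq_abs, abs_of_nonneg hX0]
  rw [h1, hX, expand2]
  set B : ι → ι → ℝ := fun r s => ‖lsD M ((ξ s).1 - (ξ r).1)‖ ^ 2 * ‖lsD M ((ξ s).2 - (ξ r).2)‖ ^ 2 with hB
  have hBs : ∀ r s, B r s = B s r := by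
    intro r s
    simp only [hB]
    rw [← lsD_norm_neg M ((ξ s).1 - (ξ r).1), ← lsD_norm_neg M ((ξ s).2 - (ξ r).2), neg_sub, neg_sub]
  have hB0 : ∀ r s, 0 ≤ B r s := fun r s => by positivity
  calc ‖∑ r ∈ R, ∑ s ∈ R, c r * (starRingEnd ℂ) (c s) *
      (lsD M ((ξ r).1 - (ξ s).1) * (starRingEnd ℂ) (lsD M ((ξ r).1 - (ξ s).1))) *
      (lsD M ((ξ r).2 - (ξ s).2) * (starRingEnd ℂ) (lsD M ((ξ r).2 - (ξ s).2)))‖
      ≤ ∑ r ∈ R, ∑ s ∈ R, ‖c r‖ * ‖c s‖ * B s r := by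
        refine le_trans (norm_sum_le _ _) (Finset.sum_le_sum fun r _ => (norm_sum_le _ _).trans
          (le_of_eq (Finset.sum_congr rfl fun s _ => ?_)))
        simp only [hB]
        rw [norm_mul, norm_mul, norm_mul, norm_mul, norm_mul, RCLike.norm_conj, RCLike.norm_conj, RCLike.norm_conj]
        ring
    _ ≤ ∑ r ∈ R, ∑ s ∈ R, ((1 / 2) * (‖c r‖ ^ 2 * B r s) + (1 / 2) * (‖c s‖ ^ 2 * B s r)) := by
        refine Finset.sum_le_sum fun r _ => Finset.sum_le_sum fun s _ => ?_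
        rw [hBs r s]
        have h2 : ‖c r‖ * ‖c s‖ ≤ (1 / 2) * (‖c r‖ ^ 2 + ‖c s‖ ^ 2) := by
          nlinarith [sq_nonneg (‖c r‖ - ‖c s‖)]
        nlinarith [mul_le_mul_of_nonneg_right h2 (hB0 s r)]
    _ = ∑ r ∈ R, ‖c r‖ ^ 2 * ∑ s ∈ R, B r s := by
        have e1 : ∀ r ∈ R, ∑ s ∈ R, ((1 / 2) * (‖c r‖ ^ 2 * B r s) + (1 / 2) * (‖c s‖ ^ 2 * B s r)) =
          (1 / 2) * (∑ s ∈ R, ‖c r‖ ^ 2 * B r s) + (1 / 2) * ∑ s ∈ R, (‖c s‖ ^ 2 * B s r) := by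
          intro r _
          rw [Finset.sum_add_distrib, Finset.mul_sum, Finset.mul_sum]
        rw [Finset.sum_congr rfl e1, Finset.sum_add_distrib, ← Finset.mul_sum, ← Finset.mul_sum]
        have e2 : ∑ r ∈ R, ∑ s ∈ R, (‖c s‖ ^ 2 * B s r) = ∑ r ∈ R, ∑ s ∈ R, (‖c r‖ ^ 2 * B r s) :=
          Finset.sum_comm
        rw [e2]
        have e3 : ∑ r ∈ R, ‖c r‖ ^ 2 * ∑ s ∈ R, B r s = ∑ r ∈ R, ∑ s ∈ R, ‖c r‖ ^ 2 * B r s :=
          Finset.sum_congr rfl fun r _ => by rw [Finset.mul_sum]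
        rw [e3]
        ring
    _ ≤ ∑ r ∈ R, ‖c r‖ ^ 2 * (2 * (M : ℝ) ^ 2 + (K : ℝ) ^ 2) ^ 2 := by
        refine Finset.sum_le_sum fun r _ => ?_
        exact mul_le_mul_of_nonneg_left (rowsum2 hK M hsep r) (by positivity)
    _ = _ := by rw [← Finset.sum_mul, mul_comm]

/-- the phase of a vector -/
noncomputable def ph (u : ℝ × ℝ) (x : ℤ × ℤ) : ℝ := (x.1 : ℝ) * u.1 + (x.2 : ℝ) * u.2

/-- the box -/
noncomputable def Bx (J : ℕ) : Finset (ℤ × ℤ) := Icc (-(J : ℤ)) J ×ˢ Icc (-(J : ℤ)) J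

lemma mem_Bx {J : ℕ} {x : ℤ × ℤ} : x ∈ Bx J ↔ |x.1| ≤ J ∧ |x.2| ≤ J := by
  unfold Bx
  rw [mem_product, mem_Icc, mem_Icc, abs_le, abs_le]

lemma dual2 (hK : 1 ≤ K) {J : ℕ} (hKJ : K ≤ J) (hsep : Sep2 R ξ K) (c : ι → ℂ) :
    ∑ x ∈ Bx J, ‖∑ r ∈ R, c r * ee (ph (ξ r) x)‖ ^ 2 ≤ 361 * (J : ℝ) ^ 2 * ∑ r ∈ R, ‖c r‖ ^ 2 := by
  have hJ : 1 ≤ J := hK.trans hKJ
  have hJ0 : (0 : ℝ) < J := by exact_mod_cast hJ
  set G : ℤ × ℤ → ℝ := fun x => ‖∑ r ∈ R, c r * ee (ph (ξ r) x)‖ ^ 2 with hG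
  have hG0 : ∀ x, 0 ≤ G x := fun x => by positivity
  have key : ∀ k k' j j' : ℕ, ‖∑ r ∈ R, (c r * Pool.Agent.Helper112.ee (((k : ℝ) - k') * (ξ r).2)) *
        Pool.Agent.Helper112.ee (((j : ℝ) - j') * (ξ r).1)‖ ^ 2 = G ((j : ℤ) - j', (k : ℤ) - k') := by
    intro k k' j j'
    simp only [hG]
    congr 2
    apply sum_congr rfl; intro r _
    rw [mul_assoc, ee112, ee112, ← ee_add]
    congr 2
    unfold ph
    push_cast
    ring
  have h3 := double2 hK (3 * J) hsep c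
  simp only [key] at h3
  have h1 : (J : ℝ) ^ 2 * ∑ x ∈ Bx J, G x ≤ ∑ k ∈ range (3 * J), ∑ k' ∈ range (3 * J),
      ∑ j ∈ range (3 * J), ∑ j' ∈ range (3 * J), G ((j : ℤ) - j', (k : ℤ) - k') := by
    -- rearrange
    have e1 : ∑ k ∈ range (3 * J), ∑ k' ∈ range (3 * J),
      ∑ j ∈ range (3 * J), ∑ j' ∈ range (3 * J), G ((j : ℤ) - j', (k : ℤ) - k') =
      ∑ k' ∈ range (3 * J), ∑ j' ∈ range (3 * J), ∑ k ∈ range (3 * J),
      ∑ j ∈ range (3 * J), G ((j : ℤ) - j', (k : ℤ) - k') := by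
      rw [Finset.sum_comm]
      apply sum_congr rfl; intro k' _
      rw [Finset.sum_congr rfl fun k _ => Finset.sum_comm]
      rw [Finset.sum_comm]
    rw [e1]
    have e2 : ∀ k' ∈ Ico J (2 * J), ∀ j' ∈ Ico J (2 * J), ∑ x ∈ Bx J, G x ≤
        ∑ k ∈ range (3 * J), ∑ j ∈ range (3 * J), G ((j : ℤ) - j', (k : ℤ) - k') := by
      intro k' hk' j' hj'
      rw [mem_Ico] at hk' hj'
      rw [← sum_product']
      have hinj : Set.InjOn (fun z : ℕ × ℕ => ((z.2 : ℤ) - j', (z.1 : ℤ) - k'))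
          (range (3 * J) ×ˢ range (3 * J) : Finset (ℕ × ℕ)) := by
        intro a _ b _ hab
        have h1 := congrArg Prod.fst hab
        have h2 := congrArg Prod.snd hab
        simp only at h1 h2
        exact Prod.ext (by omega) (by omega)
      have e3 : ∑ z ∈ range (3 * J) ×ˢ range (3 * J), G ((z.2 : ℤ) - j', (z.1 : ℤ) - k') =
          ∑ x ∈ (range (3 * J) ×ˢ range (3 * J)).image (fun z : ℕ × ℕ => ((z.2 : ℤ) - j', (z.1 : ℤ) - k')), G x := by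
        rw [sum_image hinj]
      rw [e3]
      apply sum_le_sum_of_subset_of_nonneg
      · intro x hx
        rw [mem_Bx, abs_le, abs_le] at hx
        rw [mem_image]
        refine ⟨((x.2 + k').toNat, (x.1 + j').toNat), ?_, ?_⟩
        · rw [mem_product, mem_range, mem_range]
          constructor <;> simp only <;> omega
        · apply Prod.ext <;> simp only <;> omega
      · intro x _ _; exact hG0 x
    calc (J : ℝ) ^ 2 * ∑ x ∈ Bx J, G x = ∑ _k' ∈ Ico J (2 * J), ∑ _j' ∈ Ico J (2 * J), ∑ x ∈ Bx J, G x := by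
          rw [sum_const, sum_const, Nat.card_Ico, nsmul_eq_mul, nsmul_eq_mul]
          have : ((2 * J - J : ℕ) : ℝ) = J := by
            rw [show 2 * J - J = J by omega]
          rw [this]; ring
      _ ≤ ∑ k' ∈ Ico J (2 * J), ∑ j' ∈ Ico J (2 * J),
            ∑ k ∈ range (3 * J), ∑ j ∈ range (3 * J), G ((j : ℤ) - j', (k : ℤ) - k') :=
          sum_le_sum fun k' hk' => sum_le_sum fun j' hj' => e2 k' hk' j' hj'
      _ ≤ _ := by
          have hs : Ico J (2 * J) ⊆ range (3 * J) := by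
            intro i hi
            rw [mem_Ico] at hi
            rw [mem_range]; omega
          refine (sum_le_sum fun k' _ => sum_le_sum_of_subset_of_nonneg hs fun j' _ _ =>
            sum_nonneg fun _ _ => sum_nonneg fun _ _ => hG0 _).trans ?_
          exact sum_le_sum_of_subset_of_nonneg hs fun k' _ _ =>
            sum_nonneg fun _ _ => sum_nonneg fun _ _ => sum_nonneg fun _ _ => hG0 _
  have h4 : (2 * ((3 * J : ℕ) : ℝ) ^ 2 + (K : ℝ) ^ 2) ^ 2 ≤ 361 * (J : ℝ) ^ 4 := by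
    have hk : (K : ℝ) ≤ J := by exact_mod_cast hKJ
    have hk0 : (0 : ℝ) ≤ K := Nat.cast_nonneg _
    have : 2 * ((3 * J : ℕ) : ℝ) ^ 2 + (K : ℝ) ^ 2 ≤ 19 * (J : ℝ) ^ 2 := by
      push_cast
      nlinarith
    calc (2 * ((3 * J : ℕ) : ℝ) ^ 2 + (K : ℝ) ^ 2) ^ 2 ≤ (19 * (J : ℝ) ^ 2) ^ 2 :=
          pow_le_pow_left₀ (by positivity) this 2
      _ = _ := by ring
  have hS0 : 0 ≤ ∑ r ∈ R, ‖c r‖ ^ 2 := by positivity
  have h5 : (J : ℝ) ^ 2 * ∑ x ∈ Bx J, G x ≤ (J : ℝ) ^ 2 * (361 * (J : ℝ) ^ 2 * ∑ r ∈ R, ‖c r‖ ^ 2) := by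
    calc (J : ℝ) ^ 2 * ∑ x ∈ Bx J, G x ≤ (2 * ((3 * J : ℕ) : ℝ) ^ 2 + (K : ℝ) ^ 2) ^ 2 * ∑ r ∈ R, ‖c r‖ ^ 2 :=
          h1.trans h3
      _ ≤ 361 * (J : ℝ) ^ 4 * ∑ r ∈ R, ‖c r‖ ^ 2 := mul_le_mul_of_nonneg_right h4 hS0
      _ = _ := by ring
  exact le_of_mul_le_mul_left h5 (by positivity)

end dual

/-! ### transforms of lists of vectors -/

lemma ph_add (u : ℝ × ℝ) (x y : ℤ × ℤ) : ph u (x + y) = ph u x + ph u y := by
  unfold ph; push_cast [Prod.fst_add, Prod.snd_add]; ring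

lemma ph_smul (u : ℝ × ℝ) (v : ℤ) (x : ℤ × ℤ) : ph u (v • x) = v * ph u x := by
  unfold ph; simp; ring

/-- the transform of the difference law -/
noncomputable def G2 (L : List (ℤ × ℤ)) (u : ℝ × ℝ) : ℝ :=
  (L.map (fun s => (1 + Real.cos (2 * Real.pi * ph u s)) / 2)).prod

lemma G2_nil (u : ℝ × ℝ) : G2 [] u = 1 := rfl

lemma G2_cons (s : ℤ × ℤ) (L : List (ℤ × ℤ)) (u : ℝ × ℝ) :
    G2 (s :: L) u = (1 + Real.cos (2 * Real.pi * ph u s)) / 2 * G2 L u := by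
  simp [G2]

lemma G2_append (L L' : List (ℤ × ℤ)) (u : ℝ × ℝ) : G2 (L ++ L') u = G2 L u * G2 L' u := by
  simp [G2]

lemma G2_nonneg (L : List (ℤ × ℤ)) (u : ℝ × ℝ) : 0 ≤ G2 L u := by
  induction L with
  | nil => simp [G2_nil]
  | cons s L ih =>
    rw [G2_cons]
    have := Real.neg_one_le_cos (2 * Real.pi * ph u s)
    apply mul_nonneg _ ih
    linarith

lemma G2_le_one (L : List (ℤ × ℤ)) (u : ℝ × ℝ) : G2 L u ≤ 1 := by
  induction L with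
  | nil => simp [G2_nil]
  | cons s L ih =>
    rw [G2_cons]
    have h1 := Real.neg_one_le_cos (2 * Real.pi * ph u s)
    have h2 := Real.cos_le_one (2 * Real.pi * ph u s)
    exact mul_le_one₀ (by linarith) (G2_nonneg L u) ih

lemma four_cl2 (L : List (ℤ × ℤ)) (u : ℝ × ℝ) : ‖Ev cl L (fun x => ee (ph u x))‖ ^ 2 = G2 L u := by
  induction L with
  | nil =>
    have : ph u 0 = 0 := by simp [ph]
    simp [Ev_nil, G2_nil, this, ee_zero]
  | cons s L ih =>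
    rw [Ev_cl, G2_cons]
    have e1 : ∀ x : ℤ × ℤ, ee (ph u (x + s)) = ee (ph u s) * ee (ph u x) := by
      intro x; rw [← ee_add, ph_add]; congr 1; ring
    simp only [e1]
    rw [Ev_mulC]
    have e3 : (1 / 2 : ℝ) • Ev cl L (fun x => ee (ph u x)) + (1 / 2 : ℝ) •
        (ee (ph u s) * Ev cl L (fun x => ee (ph u x))) =
        (1 + ee (ph u s)) / 2 * Ev cl L (fun x => ee (ph u x)) := by
      simp only [Complex.real_smul]; push_cast; ring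
    rw [e3, norm_mul, mul_pow, ih, norm_one_add_ee]

end Pool.Agent.K4H3.PG
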