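import Mathlib
import Pool.Agent.K4H3.PG.P2
import Pool.Agent.K4H3.CT.C4

/-! The large sieve for the transform of a list of vectors, and balanced coordinates. -/

set_option autoImplicit false

namespace Pool.Agent.K4H3.PG
open Finset
open Pool.Agent.H807R2.Dav
open Pool.Agent.Helper112 (lsSep)
open Pool.Agent.K4H3.CT

lemma four_el2 (L : List (ℤ × ℤ)) (u : ℝ × ℝ) : ‖Ev el L (fun x => ee (ph u x))‖ = G2 L u := by
  induction L with
  | nil =>
    have : ph u 0 = 0 := by simp [ph]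
    simp [Ev_nil, G2_nil, this, ee_zero]
  | cons s L ih =>
    rw [Ev_el, G2_cons]
    have e1 : ∀ x : ℤ × ℤ, ee (ph u (x + s)) = ee (ph u s) * ee (ph u x) := by
      intro x; rw [← ee_add, ph_add]; congr 1; ring
    have e2 : ∀ x : ℤ × ℤ, ee (ph u (x + (2 : ℤ) • s)) = ee (ph u s) ^ 2 * ee (ph u x) := by
      intro x; rw [← ee_pow, ← ee_add, ph_add, ph_smul]; congr 1; push_cast; ring
    simp only [e1, e2]
    rw [Ev_mulC, Ev_mulC]
    have e3 : (1 / 4 : ℝ) • Ev el L (fun x => ee (ph u x)) + (1 / 2 : ℝ) •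
        (ee (ph u s) * Ev el L (fun x => ee (ph u x))) + (1 / 4 : ℝ) •
        (ee (ph u s) ^ 2 * Ev el L (fun x => ee (ph u x))) =
        ((1 + ee (ph u s)) / 2) ^ 2 * Ev el L (fun x => ee (ph u x)) := by
      simp only [Complex.real_smul]; push_cast; ring
    rw [e3, norm_mul, norm_pow, ih, norm_one_add_ee]

/-- the point masses of the law of one coin -/
noncomputable def ac (L : List (ℤ × ℤ)) (x : ℤ × ℤ) : ℝ := Ev cl L (fun y => if y = x then (1 : ℝ) else 0)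

lemma ac_nonneg (L : List (ℤ × ℤ)) (x : ℤ × ℤ) : 0 ≤ ac L x :=
  Ev_nonneg cl_law _ _ (fun y => by split_ifs <;> norm_num)

lemma ac_sum {L : List (ℤ × ℤ)} {J : ℕ} (hL : ∀ x ∈ Rch cl L, x ∈ Bx J) (H : ℤ × ℤ → ℂ) :
    Ev cl L H = ∑ x ∈ Bx J, ((ac L x : ℝ) : ℂ) * H x := by
  have e1 : ∀ x ∈ Bx J, ((ac L x : ℝ) : ℂ) * H x =
      Ev cl L (fun y => H x * (((if y = x then (1 : ℝ) else 0) : ℝ) : ℂ)) := by
    intro x _
    rw [mul_comm, ac, Ev_ofReal, Ev_mulC]
  rw [sum_congr rfl e1, ← Ev_sum]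
  apply Ev_congr_R
  intro y hy
  rw [sum_eq_single y]
  · simp
  · intro x _ hne
    rw [if_neg (Ne.symm hne)]; simp
  · intro hn
    exact absurd (hL y hy) hn

lemma ac_sq {L : List (ℤ × ℤ)} {J : ℕ} (hL : ∀ x ∈ Rch cl L, x ∈ Bx J) :
    ∑ x ∈ Bx J, ac L x ^ 2 = Ev dl L (fun y => if y = 0 then (1 : ℝ) else 0) := by
  rw [← Ev_diff]
  have e5 : ∀ x ∈ Bx J, ac L x ^ 2 = Ev cl L (fun y => Ev cl L (fun z =>
      (if y = x then (1 : ℝ) else 0) * (if z = x then (1 : ℝ) else 0))) := by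
    intro x _
    rw [sq]
    simp_rw [Ev_mulR]
    have : ∀ y : ℤ × ℤ, (if y = x then (1 : ℝ) else 0) * Ev cl L
        (fun z => if z = x then (1 : ℝ) else 0) = ac L x * (if y = x then (1 : ℝ) else 0) := by
      intro y; rw [mul_comm, ac]
    simp_rw [this]
    rw [Ev_mulR]; rfl
  rw [sum_congr rfl e5, ← Ev_sum]
  apply Ev_congr_R
  intro y hy
  rw [← Ev_sum]
  congr 1; funext z
  rw [sum_eq_single y]
  · rw [if_pos rfl, one_mul]
    congr 1
    rw [eq_iff_iff]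
    constructor
    · intro h; rw [h, sub_self]
    · intro h; exact (sub_eq_zero.1 h).symm
  · intro x _ hne
    rw [if_neg (Ne.symm hne), zero_mul]
  · intro hn
    exact absurd (hL y hy) hn

/-- **the large sieve inequality for the transform** -/
theorem ls2 {ι : Type*} [DecidableEq ι] {R : Finset ι} {ξ : ι → ℝ × ℝ} {K : ℕ} (hK : 1 ≤ K) {J : ℕ}
    (hKJ : K ≤ J) (hsep : Sep2 R ξ K) {L : List (ℤ × ℤ)} (hL : ∀ x ∈ Rch cl L, x ∈ Bx J) :
    ∑ r ∈ R, G2 L (ξ r) ≤ 361 * (J : ℝ) ^ 2 * Ev dl L (fun y => if y = 0 then (1 : ℝ) else 0) := by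
  set g : ι → ℂ := fun r => Ev cl L (fun x => ee (ph (ξ r) x)) with hg
  set S := ∑ r ∈ R, G2 L (ξ r) with hS
  set P0 := Ev dl L (fun y => if y = 0 then (1 : ℝ) else 0) with hP0
  have hP00 : 0 ≤ P0 := Ev_nonneg dl_law _ _ (fun y => by split_ifs <;> norm_num)
  have hS0 : 0 ≤ S := sum_nonneg fun r _ => G2_nonneg _ _
  have hSg : S = ∑ r ∈ R, ‖(starRingEnd ℂ) (g r)‖ ^ 2 := by
    rw [hS]
    apply sum_congr rfl; intro r _
    rw [RCLike.norm_conj, hg, four_cl2]
  have hd := dual2 hK hKJ hsep (fun r => (starRingEnd ℂ) (g r))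
  rw [← hSg] at hd
  have h1 : (S : ℂ) = ∑ x ∈ Bx J, ((ac L x : ℝ) : ℂ) * ∑ r ∈ R, (starRingEnd ℂ) (g r) * ee (ph (ξ r) x) := by
    rw [← ac_sum hL, Ev_sum]
    rw [hS]
    push_cast
    apply sum_congr rfl; intro r _
    rw [Ev_mulC, ← four_cl2]
    push_cast
    rw [← Complex.mul_conj', mul_comm]
  have h2 : S ≤ ∑ x ∈ Bx J, ac L x * ‖∑ r ∈ R, (starRingEnd ℂ) (g r) * ee (ph (ξ r) x)‖ := by
    have h3 : S = ‖(S : ℂ)‖ := by
      rw [Complex.norm_real, Real.norm_eq_abs, abs_of_nonneg hS0]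
    rw [h3, h1]
    refine (norm_sum_le _ _).trans (le_of_eq (sum_congr rfl fun x _ => ?_))
    rw [norm_mul, Complex.norm_real, Real.norm_of_nonneg (ac_nonneg L x)]
  have h3 := Real.sum_mul_le_sqrt_mul_sqrt (Bx J) (fun x => ac L x)
    (fun x => ‖∑ r ∈ R, (starRingEnd ℂ) (g r) * ee (ph (ξ r) x)‖)
  rw [ac_sq hL] at h3
  have h4 : S ≤ √P0 * √(361 * (J : ℝ) ^ 2 * S) :=
    h2.trans (h3.trans (mul_le_mul_of_nonneg_left (Real.sqrt_le_sqrt hd) (Real.sqrt_nonneg _)))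
  rw [← Real.sqrt_mul hP00] at h4
  have h5 : S ^ 2 ≤ P0 * (361 * (J : ℝ) ^ 2 * S) := by
    have hnn : 0 ≤ P0 * (361 * (J : ℝ) ^ 2 * S) := by positivity
    calc S ^ 2 ≤ (√(P0 * (361 * (J : ℝ) ^ 2 * S))) ^ 2 := pow_le_pow_left₀ hS0 h4 2
      _ = _ := Real.sq_sqrt hnn
  rcases hS0.eq_or_lt with h6 | h6
  · rw [← h6]; positivity
  · have h7 : S * S ≤ (361 * (J : ℝ) ^ 2 * P0) * S := by
      calc S * S = S ^ 2 := by ring
        _ ≤ _ := h5
        _ = _ := by ring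
    exact le_of_mul_le_mul_right h7 h6

/-! ### balanced coordinates -/

/-- the coordinates of `t_j` for `j ≥ k` and `j < k` in terms of `t_{k-1}`, `t_k` -/
def vec (k j : ℕ) : ℤ × ℤ :=
  if k ≤ j then ((Nat.fib (j - k) : ℤ), (Nat.fib (j - k + 1) : ℤ))
  else ((-1) ^ (k - j + 1) * (Nat.fib (k - j) : ℤ), (-1) ^ (k - j) * (Nat.fib (k - j - 1) : ℤ))

lemma rec_up {A : Type*} [CommRing A] (t : ℕ → A) (ht : ∀ j, t (j + 2) = t (j + 1) + t j) (k : ℕ) (hk : 1 ≤ k)
    (i : ℕ) : t (k + i) = (Nat.fib i : A) * t (k - 1) + (Nat.fib (i + 1) : A) * t k := by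
  induction i using Nat.strong_induction_on with
  | _ i ih =>
    match i, ih with
    | 0, _ => simp
    | 1, _ =>
      have h := ht (k - 1)
      rw [show k - 1 + 2 = k + 1 by omega, show k - 1 + 1 = k by omega] at h
      rw [h, show (1 : ℕ) + 1 = 2 from rfl, Nat.fib_one, Nat.fib_two]
      push_cast; ring
    | (i + 2), ih =>
      have h1 := ih (i + 1) (by omega)
      have h2 := ih i (by omega)
      have h3 := ht (k + i)
      rw [show k + (i + 2) = k + i + 2 by ring, h3, show k + i + 1 = k + (i + 1) by ring, h1, h2]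
      have e1 : Nat.fib (i + 2) = Nat.fib i + Nat.fib (i + 1) := Nat.fib_add_two
      have e2 : Nat.fib (i + 2 + 1) = Nat.fib (i + 1) + Nat.fib (i + 1 + 1) := Nat.fib_add_two
      rw [e2, e1]; push_cast; ring

lemma rec_down {A : Type*} [CommRing A] (t : ℕ → A) (ht : ∀ j, t (j + 2) = t (j + 1) + t j) (k : ℕ)
    (i : ℕ) (hi : i + 1 ≤ k) : t (k - (i + 1)) = (-1) ^ (i + 2) * (Nat.fib (i + 1) : A) * t (k - 1) +
      (-1) ^ (i + 1) * (Nat.fib i : A) * t k := by
  induction i using Nat.strong_induction_on with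
  | _ i ih =>
    match i, ih, hi with
    | 0, _, _ => simp
    | 1, _, hi =>
      have h := ht (k - 2)
      rw [show k - 2 + 2 = k by omega, show k - 2 + 1 = k - 1 by omega] at h
      rw [show k - (1 + 1) = k - 2 by omega, show (1 : ℕ) + 1 = 2 from rfl, Nat.fib_one, Nat.fib_two, h]
      push_cast; ring
    | (i + 2), ih, hi =>
      have h1 := ih (i + 1) (by omega) (by omega)
      have h2 := ih i (by omega) (by omega)
      have h3 := ht (k - (i + 2 + 1))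
      rw [show k - (i + 2 + 1) + 2 = k - (i + 1) by omega,
        show k - (i + 2 + 1) + 1 = k - (i + 1 + 1) by omega, h1, h2] at h3
      have e1 : Nat.fib (i + 2) = Nat.fib i + Nat.fib (i + 1) := Nat.fib_add_two
      have e2 : Nat.fib (i + 2 + 1) = Nat.fib (i + 1) + Nat.fib (i + 2) := Nat.fib_add_two
      have e3 : Nat.fib (i + 1 + 1) = Nat.fib i + Nat.fib (i + 1) := Nat.fib_add_two
      rw [e3] at h3
      rw [e2, e1]
      push_cast at h3 ⊢
      linear_combination -h3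

lemma rec_vec {A : Type*} [CommRing A] (t : ℕ → A) (ht : ∀ j, t (j + 2) = t (j + 1) + t j) (k : ℕ) (hk : 1 ≤ k)
    (j : ℕ) : t j = ((vec k j).1 : A) * t (k - 1) + ((vec k j).2 : A) * t k := by
  unfold vec
  split_ifs with h
  · have := rec_up t ht k hk (j - k)
    rw [show k + (j - k) = j by omega] at this
    rw [this]; push_cast; ring
  · have := rec_down t ht k (k - j - 1) (by omega)
    rw [show k - (k - j - 1 + 1) = j by omega, show k - j - 1 + 2 = k - j + 1 by omega,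
      show k - j - 1 + 1 = k - j by omega] at this
    rw [this]; push_cast; ring

/-- the list of the vectors -/
def VL (k : ℕ) : ℕ → List (ℤ × ℤ)
  | 0 => []
  | (j + 1) => vec k j :: VL k j

/-- the list of the numbers `t_j` -/
def TL (t : ℕ → ℤ) : ℕ → List ℤ
  | 0 => []
  | (j + 1) => t j :: TL t j

lemma TL_fib (m : ℕ) : TL (fun j => (Nat.fib (j + 1) : ℤ)) m = Fl 0 m := by
  induction m with
  | zero => rfl
  | succ m ih => rw [TL, Fl_succ, ih, zero_add]

lemma fib_rec (j : ℕ) : (fun j => (Nat.fib (j + 1) : ℤ)) (j + 2) =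
    (fun j => (Nat.fib (j + 1) : ℤ)) (j + 1) + (fun j => (Nat.fib (j + 1) : ℤ)) j := by
  simp only
  rw [show j + 2 + 1 = (j + 1) + 2 by ring, Nat.fib_add_two]; push_cast; ring

/-- the homomorphism mapping `vec k j` to `F_{j+1}` -/
def hm (k : ℕ) : ℤ × ℤ →+ ℤ where
  toFun x := x.1 * Nat.fib k + x.2 * Nat.fib (k + 1)
  map_zero' := by simp
  map_add' x y := by simp only [Prod.fst_add, Prod.snd_add]; ring

lemma hm_vec (k : ℕ) (hk : 1 ≤ k) (j : ℕ) : hm k (vec k j) = Nat.fib (j + 1) := by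
  have h := rec_vec (fun j => (Nat.fib (j + 1) : ℤ)) fib_rec k hk j
  rw [show k - 1 + 1 = k by omega] at h
  rw [h]
  show (vec k j).1 * (Nat.fib k : ℤ) + (vec k j).2 * Nat.fib (k + 1) = _
  push_cast; ring

lemma map_VL (k : ℕ) (hk : 1 ≤ k) (m : ℕ) : (VL k m).map (hm k) = Fl 0 m := by
  rw [← TL_fib]
  induction m with
  | zero => rfl
  | succ m ih => rw [VL, List.map_cons, ih, hm_vec k hk, TL]

lemma coll_VL (k : ℕ) (hk : 1 ≤ k) (m : ℕ) :
    Ev dl (VL k m) (fun y => if y = 0 then (1 : ℝ) else 0) ≤ PR m 0 := by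
  unfold PR
  rw [← map_VL k hk m, Ev_map]
  apply Ev_mono dl_law.1
  intro x
  by_cases h : x = 0
  · rw [if_pos h, if_pos (by rw [h, map_zero])]
  · rw [if_neg h]
    split_ifs <;> norm_num

lemma cl_VL_bound (k : ℕ) (m : ℕ) (x : ℤ × ℤ) (hx : x ∈ Rch cl (VL k m)) :
    |x.1| ≤ ∑ j ∈ range m, |(vec k j).1| ∧ |x.2| ≤ ∑ j ∈ range m, |(vec k j).2| := by
  induction m generalizing x with
  | zero =>
    have : x = 0 := hx
    rw [this]; simp
  | succ m ih =>
    obtain ⟨y, hy, v, hv, rfl⟩ := hx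
    have h1 := ih y hy
    have h2 := cl_ne hv
    rw [sum_range_succ, sum_range_succ]
    have h3 : |v| ≤ 1 := by rw [abs_le]; omega
    constructor
    · calc |(y + v • vec k m).1| = |y.1 + v * (vec k m).1| := by simp
        _ ≤ |y.1| + |v * (vec k m).1| := abs_add_le _ _
        _ ≤ _ := by
          rw [abs_mul]
          have := mul_le_mul_of_nonneg_right h3 (abs_nonneg (vec k m).1)
          linarith [h1.1]
    · calc |(y + v • vec k m).2| = |y.2 + v * (vec k m).2| := by simp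
        _ ≤ |y.2| + |v * (vec k m).2| := abs_add_le _ _
        _ ≤ _ := by
          rw [abs_mul]
          have := mul_le_mul_of_nonneg_right h3 (abs_nonneg (vec k m).2)
          linarith [h1.2]

lemma sum_fib_le (n : ℕ) : ∑ j ∈ range n, Nat.fib (j + 1) ≤ Nat.fib (n + 2) := by
  induction n with
  | zero => simp
  | succ n ih =>
    rw [sum_range_succ]
    have : Nat.fib (n + 1 + 2) = Nat.fib (n + 1) + Nat.fib (n + 1 + 1) := Nat.fib_add_two
    have e : Nat.fib (n + 2) = Nat.fib (n + 1 + 1) := rfl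
    omega

lemma vec_abs_le (k j : ℕ) : |(vec k j).1| ≤ (Nat.fib ((j - k) + (k - j) + 1) : ℤ) ∧
    |(vec k j).2| ≤ (Nat.fib ((j - k) + (k - j) + 1) : ℤ) := by
  unfold vec
  split_ifs with h
  · rw [show k - j = 0 by omega, add_zero]
    simp only [Nat.abs_cast]
    refine ⟨?_, le_rfl⟩
    exact_mod_cast Nat.fib_le_fib_succ
  · rw [show j - k = 0 by omega, zero_add]
    simp only [abs_mul, abs_pow, abs_neg, abs_one, one_pow, one_mul, Nat.abs_cast]
    constructor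
    · exact_mod_cast Nat.fib_le_fib_succ
    · exact_mod_cast Nat.fib_mono (by omega)

lemma sum_vec (k : ℕ) : ∑ j ∈ range (2 * k), Nat.fib ((j - k) + (k - j) + 1) ≤ 2 * Nat.fib (k + 3) := by
  rw [two_mul, sum_range_add]
  have h1 : ∑ x ∈ range k, Nat.fib ((x - k) + (k - x) + 1) ≤ Nat.fib (k + 3) := by
    have e : ∀ x ∈ range k, Nat.fib ((x - k) + (k - x) + 1) = Nat.fib ((k - 1 - x) + 1 + 1) := by
      intro x hx
      rw [mem_range] at hx
      congr 1; omega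
    rw [sum_congr rfl e, sum_range_reflect (fun i => Nat.fib (i + 1 + 1)) k]
    have h2 := sum_fib_le (k + 1)
    rw [sum_range_succ'] at h2
    have e3 : k + 1 + 2 = k + 3 := by ring
    rw [e3] at h2
    omega
  have h2 : ∑ x ∈ range k, Nat.fib ((k + x - k) + (k - (k + x)) + 1) ≤ Nat.fib (k + 3) := by
    have e : ∀ x ∈ range k, Nat.fib ((k + x - k) + (k - (k + x)) + 1) = Nat.fib (x + 1) := by
      intro x _
      congr 1; omega
    rw [sum_congr rfl e]
    exact (sum_fib_le k).trans (Nat.fib_mono (by omega))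
  omega

lemma VL_box (k : ℕ) (x : ℤ × ℤ) (hx : x ∈ Rch cl (VL k (2 * k))) : x ∈ Bx (2 * Nat.fib (k + 3)) := by
  have h := cl_VL_bound k (2 * k) x hx
  rw [mem_Bx]
  have h1 : ∑ j ∈ range (2 * k), |(vec k j).1| ≤ ((2 * Nat.fib (k + 3) : ℕ) : ℤ) := by
    calc ∑ j ∈ range (2 * k), |(vec k j).1| ≤ ∑ j ∈ range (2 * k), (Nat.fib ((j - k) + (k - j) + 1) : ℤ) :=
          sum_le_sum fun j _ => (vec_abs_le k j).1
      _ ≤ _ := by exact_mod_cast sum_vec k
  have h2 : ∑ j ∈ range (2 * k), |(vec k j).2| ≤ ((2 * Nat.fib (k + 3) : ℕ) : ℤ) := by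
    calc ∑ j ∈ range (2 * k), |(vec k j).2| ≤ ∑ j ∈ range (2 * k), (Nat.fib ((j - k) + (k - j) + 1) : ℤ) :=
          sum_le_sum fun j _ => (vec_abs_le k j).2
      _ ≤ _ := by exact_mod_cast sum_vec k
  exact ⟨h.1.trans h1, h.2.trans h2⟩

/-- the product of the factors `(1 + cos 2π t_j) / 2` -/
noncomputable def Gt (t : ℕ → ℝ) (m : ℕ) : ℝ := ∏ j ∈ range m, (1 + Real.cos (2 * Real.pi * t j)) / 2

lemma Gt_eq (t : ℕ → ℝ) (ht : ∀ j, t (j + 2) = t (j + 1) + t j) (k : ℕ) (hk : 1 ≤ k) (m : ℕ) :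
    G2 (VL k m) (t (k - 1), t k) = Gt t m := by
  induction m with
  | zero => rfl
  | succ m ih =>
    rw [VL, G2_cons, ih, Gt, Gt, prod_range_succ, mul_comm]
    congr 3
    have := rec_vec t ht k hk m
    unfold ph
    rw [← this]

/-- **the large sieve for solutions of the recurrence** -/
theorem ls_rec {ι : Type*} [DecidableEq ι] {R : Finset ι} (t : ι → ℕ → ℝ)
    (ht : ∀ r ∈ R, ∀ j, t r (j + 2) = t r (j + 1) + t r j) {k K : ℕ} (hk : 1 ≤ k) (hK : 1 ≤ K)
    (hKk : K ≤ 2 * Nat.fib (k + 3))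
    (hsep : Sep2 R (fun r => (t r (k - 1), t r k)) K) :
    ∑ r ∈ R, Gt (t r) (2 * k) ≤ 361 * (2 * (Nat.fib (k + 3) : ℝ)) ^ 2 * PR (2 * k) 0 := by
  have h := ls2 hK hKk hsep (VL_box k)
  have e : ∀ r ∈ R, G2 (VL k (2 * k)) (t r (k - 1), t r k) = Gt (t r) (2 * k) := fun r hr =>
    Gt_eq (t r) (ht r hr) k hk (2 * k)
  rw [sum_congr rfl e] at h
  refine h.trans ?_
  push_cast
  exact mul_le_mul_of_nonneg_left (coll_VL k hk (2 * k)) (by positivity)

end Pool.Agent.K4H3.PG
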