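import Mathlib
import Pool.Agent.K4H3.PG.P3
import Pool.Agent.K4H3.CT.C8

/-! Pairs of Farey fractions: separation, the large sieve, pointwise decay. -/

set_option autoImplicit false

namespace Pool.Agent.K4H3.PG
open Finset
open Pool.Agent.H807R2.Dav
open Pool.Agent.Helper112 (lsSep ls_sep_of_int)
open Pool.Agent.K4H3.CT
open scoped goldenRatio

/-- the solution of the recurrence attached to a pair of frequencies -/
noncomputable def tt (d : ℕ) (α β : ℝ) (j : ℕ) : ℝ := Nat.fib (j + 1) * α + Nat.fib (j + 1 + d) * β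

lemma tt_rec (d : ℕ) (α β : ℝ) (j : ℕ) : tt d α β (j + 2) = tt d α β (j + 1) + tt d α β j := by
  unfold tt
  have e1 : Nat.fib (j + 2 + 1) = Nat.fib (j + 1) + Nat.fib (j + 1 + 1) := Nat.fib_add_two
  have e2 : Nat.fib (j + 2 + 1 + d) = Nat.fib (j + 1 + d) + Nat.fib (j + 1 + 1 + d) := by
    rw [show j + 2 + 1 + d = (j + 1 + d) + 2 by ring, Nat.fib_add_two,
      show j + 1 + d + 1 = j + 1 + 1 + d by ring]
  rw [e1, e2]; push_cast; ring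

lemma dvd_of_not_sep {K Q : ℕ} (hQ : 1 ≤ Q) (hQK : Q ≤ K) {N : ℤ} {x : ℝ} (hx : x = (N : ℝ) / (Q : ℕ))
    (h : ¬ lsSep K x) : (Q : ℤ) ∣ N := by
  by_contra hd
  apply h
  have hQ0 : (0 : ℝ) < Q := by exact_mod_cast hQ
  have hK0 : (0 : ℝ) < K := by exact_mod_cast (hQ.trans hQK)
  have h1 : Int.fract x = ((N % (Q : ℤ) : ℤ) : ℝ) / Q := by
    rw [hx]
    exact Int.fract_div_intCast_eq_div_intCast_mod
  have h2 : 1 ≤ N % (Q : ℤ) := by
    have h3 := Int.emod_nonneg N (show (Q : ℤ) ≠ 0 by positivity)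
    have h4 : N % (Q : ℤ) ≠ 0 := fun h5 => hd (Int.dvd_of_emod_eq_zero h5)
    omega
  have h3 : N % (Q : ℤ) + 1 ≤ Q := Int.emod_lt_of_pos N (by positivity)
  have h2' : (1 : ℝ) ≤ ((N % (Q : ℤ) : ℤ) : ℝ) := by exact_mod_cast h2
  have h3' : ((N % (Q : ℤ) : ℤ) : ℝ) + 1 ≤ Q := by exact_mod_cast h3
  have h4 : 1 / (K : ℝ) ≤ 1 / Q := one_div_le_one_div_of_le hQ0 (by exact_mod_cast hQK)
  unfold lsSep
  rw [h1]
  constructor
  · exact h4.trans (div_le_div_of_nonneg_right h2' hQ0.le)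
  · have : ((N % (Q : ℤ) : ℤ) : ℝ) / Q ≤ 1 - 1 / Q := by
      rw [div_le_iff₀ hQ0, sub_mul, one_div_mul_cancel hQ0.ne']
      linarith
    linarith

/-- all terms are divisible if two consecutive ones are -/
lemma dvd_all {Q : ℤ} (N : ℕ → ℤ) (hN : ∀ j, N (j + 2) = N (j + 1) + N j) {k : ℕ} (hk : 1 ≤ k)
    (h1 : Q ∣ N (k - 1)) (h2 : Q ∣ N k) (j : ℕ) : Q ∣ N j := by
  rw [rec_vec N hN k hk j]
  exact dvd_add (Dvd.dvd.mul_left h1 _) (Dvd.dvd.mul_left h2 _)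

/-- the arithmetic core -/
lemma core_dvd {d : ℕ} {A B : ℤ} {q1 q2 : ℕ} (hq1 : 1 ≤ q1) (hq2 : 1 ≤ q2) (hc : q2.Coprime (Nat.fib d))
    (h : ∀ j : ℕ, ((q1 * q2 : ℕ) : ℤ) ∣ Nat.fib (j + 1) * (A * q2) + Nat.fib (j + 1 + d) * (B * q1)) :
    (q1 : ℤ) ∣ A ∧ (q2 : ℤ) ∣ B := by
  have hq1' : (q1 : ℤ) ≠ 0 := by positivity
  have hq2' : (q2 : ℤ) ≠ 0 := by positivity
  have h0 := h 0
  have h1 := h 1
  have h2 := dvd_sub h1 h0
  have e : (Nat.fib (1 + 1) : ℤ) * (A * q2) + Nat.fib (1 + 1 + d) * (B * q1) -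
      (Nat.fib (0 + 1) * (A * q2) + Nat.fib (0 + 1 + d) * (B * q1)) = Nat.fib d * B * q1 := by
    have e1 : Nat.fib (1 + 1 + d) = Nat.fib d + Nat.fib (0 + 1 + d) := by
      rw [show 1 + 1 + d = d + 2 by ring, Nat.fib_add_two, show d + 1 = 0 + 1 + d by ring]
    rw [e1, show (1 : ℕ) + 1 = 2 from rfl, zero_add, Nat.fib_two, Nat.fib_one]
    push_cast; ring
  rw [e] at h2
  push_cast at h2
  have h3 : (q2 : ℤ) ∣ Nat.fib d * B := by
    have : (q1 : ℤ) * q2 ∣ q1 * (Nat.fib d * B) := by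
      have e2 : (q1 : ℤ) * (Nat.fib d * B) = Nat.fib d * B * q1 := by ring
      rw [e2]; exact h2
    exact (mul_dvd_mul_iff_left hq1').1 this
  have hB : (q2 : ℤ) ∣ B := by
    have hcop : IsCoprime (q2 : ℤ) (Nat.fib d : ℤ) := Nat.isCoprime_iff_coprime.2 hc
    exact hcop.dvd_of_dvd_mul_left h3
  refine ⟨?_, hB⟩
  obtain ⟨B', hB'⟩ := hB
  push_cast at h0
  rw [Nat.fib_one] at h0
  have h4 : (q1 : ℤ) * q2 ∣ A * q2 := by
    have e3 : A * (q2 : ℤ) = (((1 : ℕ) : ℤ) * (A * q2) + Nat.fib (1 + d) * (B * q1)) -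
        (q1 * q2) * (Nat.fib (1 + d) * B') := by
      rw [hB']; push_cast; ring
    rw [e3]
    exact dvd_sub h0 (Dvd.intro _ rfl)
  exact (mul_dvd_mul_iff_right hq2').1 h4

/-- the pairs of Farey fractions, the second denominator coprime to `F_d` -/
noncomputable def R2 (d X : ℕ) : Finset ((ℕ × ℕ) × (ℕ × ℕ)) :=
  (RX X ×ˢ RX X).filter (fun z => z.2.1.Coprime (Nat.fib d))

lemma mem_R2 {d X : ℕ} {z : (ℕ × ℕ) × (ℕ × ℕ)} : z ∈ R2 d X ↔
    (z.1 ∈ RX X ∧ z.2 ∈ RX X) ∧ z.2.1.Coprime (Nat.fib d) := by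
  unfold R2; rw [mem_filter, mem_product]

/-- the sequence attached to a pair of fractions -/
noncomputable def tz (d : ℕ) (z : (ℕ × ℕ) × (ℕ × ℕ)) : ℕ → ℝ := tt d ((z.1.2 : ℝ) / z.1.1) ((z.2.2 : ℝ) / z.2.1)

lemma sep_R2 (d X : ℕ) (hX : 1 ≤ X) (k : ℕ) (hk : 1 ≤ k) :
    Sep2 (R2 d X) (fun z => (tz d z (k - 1), tz d z k)) (X ^ 4) := by
  intro r hr s hs hne
  rw [mem_R2, mem_RX, mem_RX] at hr hs
  obtain ⟨⟨⟨r1, r2, r3, r4⟩, ⟨r5, r6, r7, r8⟩⟩, r9⟩ := hr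
  obtain ⟨⟨⟨s1, s2, s3, s4⟩, ⟨s5, s6, s7, s8⟩⟩, s9⟩ := hs
  by_contra hcon
  push Not at hcon
  obtain ⟨c1, c2⟩ := hcon
  set A : ℤ := (s.1.2 : ℤ) * r.1.1 - r.1.2 * s.1.1 with hA
  set B : ℤ := (s.2.2 : ℤ) * r.2.1 - r.2.2 * s.2.1 with hB
  set q1 : ℕ := r.1.1 * s.1.1 with hq1
  set q2 : ℕ := r.2.1 * s.2.1 with hq2
  have hq1p : 1 ≤ q1 := Nat.mul_pos r1 s1
  have hq2p : 1 ≤ q2 := Nat.mul_pos r5 s5
  set N : ℕ → ℤ := fun j => Nat.fib (j + 1) * (A * q2) + Nat.fib (j + 1 + d) * (B * q1) with hN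
  have hNrec : ∀ j, N (j + 2) = N (j + 1) + N j := by
    intro j
    simp only [hN]
    have e1 : Nat.fib (j + 2 + 1) = Nat.fib (j + 1) + Nat.fib (j + 1 + 1) := Nat.fib_add_two
    have e2 : Nat.fib (j + 2 + 1 + d) = Nat.fib (j + 1 + d) + Nat.fib (j + 1 + 1 + d) := by
      rw [show j + 2 + 1 + d = (j + 1 + d) + 2 by ring, Nat.fib_add_two,
        show j + 1 + d + 1 = j + 1 + 1 + d by ring]
    rw [e1, e2]; push_cast; ring
  have hr1 : (0 : ℝ) < r.1.1 := by exact_mod_cast r1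
  have hr5 : (0 : ℝ) < r.2.1 := by exact_mod_cast r5
  have hs1 : (0 : ℝ) < s.1.1 := by exact_mod_cast s1
  have hs5 : (0 : ℝ) < s.2.1 := by exact_mod_cast s5
  have hval : ∀ j, tz d s j - tz d r j = ((N j : ℤ) : ℝ) / ((q1 * q2 : ℕ) : ℝ) := by
    intro j
    unfold tz tt
    simp only [hN, hA, hB, hq1, hq2]
    push_cast
    field_simp
    ring
  have hQ : 1 ≤ q1 * q2 := Nat.mul_pos hq1p hq2p
  have hQK : q1 * q2 ≤ X ^ 4 := by
    calc q1 * q2 ≤ (X * X) * (X * X) := Nat.mul_le_mul (Nat.mul_le_mul r2 s2) (Nat.mul_le_mul r6 s6)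
      _ = X ^ 4 := by ring
  have d1 := dvd_of_not_sep hQ hQK (hval (k - 1)) c1
  have d2 := dvd_of_not_sep hQ hQK (hval k) c2
  have hall := dvd_all N hNrec hk d1 d2
  obtain ⟨h1, h2⟩ := core_dvd hq1p hq2p (Nat.Coprime.mul_left r9 s9) hall
  -- integers are not separated
  have hint : ∀ (K : ℕ) (n : ℤ), 1 ≤ K → ¬ lsSep K (n : ℝ) := by
    intro K n hK h
    have := h.1
    rw [Int.fract_intCast] at this
    have hp : (0 : ℝ) < 1 / K := by positivity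
    linarith
  apply hne
  have hX2 : 1 ≤ X ^ 2 := Nat.one_le_pow _ _ hX
  have a1 : r.1 = s.1 := by
    by_contra hc
    have h3 := ls_sep_of_int X r.1.1 s.1.1 r1 s1 r2 s2 r.1.2 s.1.2 r3 s3 r4 s4
      (by rintro ⟨a, b⟩; exact hc (Prod.ext a b))
    obtain ⟨n, hn⟩ := h1
    have e : (s.1.2 : ℝ) / s.1.1 - (r.1.2 : ℝ) / r.1.1 = (n : ℝ) := by
      have : (A : ℝ) = q1 * n := by exact_mod_cast congrArg (Int.cast (R := ℝ)) hn
      rw [hA, hq1] at this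
      push_cast at this
      field_simp
      linarith
    rw [e] at h3
    exact hint _ _ hX2 h3
  have a2 : r.2 = s.2 := by
    by_contra hc
    have h3 := ls_sep_of_int X r.2.1 s.2.1 r5 s5 r6 s6 r.2.2 s.2.2 r7 s7 r8 s8
      (by rintro ⟨a, b⟩; exact hc (Prod.ext a b))
    obtain ⟨n, hn⟩ := h2
    have e : (s.2.2 : ℝ) / s.2.1 - (r.2.2 : ℝ) / r.2.1 = (n : ℝ) := by
      have : (B : ℝ) = q2 * n := by exact_mod_cast congrArg (Int.cast (R := ℝ)) hn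
      rw [hB, hq2] at this
      push_cast at this
      field_simp
      linarith
    rw [e] at h3
    exact hint _ _ hX2 h3
  exact Prod.ext a1 a2

/-- the large sieve for pairs of Farey fractions -/
lemma farey2 (d s : ℕ) (hs : 1 ≤ s) :
    ∑ z ∈ R2 d (Nat.fib s), Gt (tz d z) (8 * s) ≤ 20000 * (ρ ^ 8) ^ s := by
  classical
  set X := Nat.fib s with hX
  have hX1 : 1 ≤ X := Nat.fib_pos.2 hs
  have hK : X ^ 4 ≤ 2 * Nat.fib (4 * s + 3) := by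
    have h1 := fib_le_phi s
    have h2 := phi_le_fib (4 * s)
    have h3 : Nat.fib (4 * s + 1) ≤ Nat.fib (4 * s + 3) := Nat.fib_mono (by omega)
    have h4 : ((X ^ 4 : ℕ) : ℝ) ≤ ((2 * Nat.fib (4 * s + 3) : ℕ) : ℝ) := by
      push_cast
      calc (X : ℝ) ^ 4 ≤ (φ ^ s) ^ 4 := by gcongr
        _ = φ ^ (4 * s) := by rw [← pow_mul]; ring_nf
        _ ≤ 2 * Nat.fib (4 * s + 1) := h2
        _ ≤ 2 * Nat.fib (4 * s + 3) := by
          have : (Nat.fib (4 * s + 1) : ℝ) ≤ Nat.fib (4 * s + 3) := by exact_mod_cast h3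
          linarith
    exact_mod_cast h4
  have h := ls_rec (R := R2 d X) (fun z => tz d z) (fun z _ j => tt_rec _ _ _ _) (k := 4 * s)
    (by omega) (Nat.one_le_pow _ _ hX1) hK (sep_R2 d X hX1 (4 * s) (by omega))
  rw [show 2 * (4 * s) = 8 * s by ring] at h
  refine h.trans ?_
  have h3 : (Nat.fib (4 * s + 3) : ℝ) ≤ φ ^ (4 * s + 2) := fib_succ_le_phi (4 * s + 2)
  have h5 := (collisions (8 * s)).1
  have h6 := PR_nonneg (8 * s) 0
  have hφ0 := Real.goldenRatio_pos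
  have h7 : (0 : ℝ) < φ ^ (4 * s + 2) := pow_pos hφ0 _
  have h8 : φ ^ 4 ≤ 6.9 := by
    have := phi_bounds
    calc φ ^ 4 ≤ 1.62 ^ 4 := by gcongr; exact this.2.le
      _ ≤ 6.9 := by norm_num
  have h9 : (0 : ℝ) ≤ (ρ ^ 8) ^ s := by
    have := rho_bounds
    have h0 : 0 ≤ ρ := by linarith [this.1]
    positivity
  calc 361 * (2 * (Nat.fib (4 * s + 3) : ℝ)) ^ 2 * PR (8 * s) 0 ≤
        361 * (2 * φ ^ (4 * s + 2)) ^ 2 * (2 * (5 / 8 : ℝ) ^ (8 * s)) := by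
          gcongr
    _ = 2888 * φ ^ 4 * ((φ * (5 / 8)) ^ (8 * s)) := by
          rw [mul_pow φ (5 / 8 : ℝ)]
          ring
    _ = 2888 * φ ^ 4 * (ρ ^ 8) ^ s := by
          rw [show φ * (5 / 8 : ℝ) = ρ from rfl, ← pow_mul]
    _ ≤ 2888 * 6.9 * (ρ ^ 8) ^ s := by gcongr
    _ ≤ 20000 * (ρ ^ 8) ^ s := by
          apply mul_le_mul_of_nonneg_right _ h9
          norm_num

end Pool.Agent.K4H3.PG
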