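import Mathlib
import Pool.Agent.K4H3.PG.P4

/-! Pointwise decay for pairs of fractions, and the error terms of the two-dimensional sieve. -/

set_option autoImplicit false

namespace Pool.Agent.K4H3.PG
open Finset
open Pool.Agent.H807R2.Dav
open Pool.Agent.K4H3.CT
open scoped goldenRatio

lemma fac_bounds (x : ℝ) : 0 ≤ (1 + Real.cos (2 * Real.pi * x)) / 2 ∧ (1 + Real.cos (2 * Real.pi * x)) / 2 ≤ 1 := by
  have h1 := Real.neg_one_le_cos (2 * Real.pi * x)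
  have h2 := Real.cos_le_one (2 * Real.pi * x)
  constructor <;> linarith

lemma Gt_nonneg (t : ℕ → ℝ) (m : ℕ) : 0 ≤ Gt t m := prod_nonneg fun j _ => (fac_bounds _).1

lemma Gt_le_one (t : ℕ → ℝ) (m : ℕ) : Gt t m ≤ 1 := prod_le_one (fun j _ => (fac_bounds _).1) fun j _ => (fac_bounds _).2

lemma Gt_add (t : ℕ → ℝ) (m n : ℕ) : Gt t (m + n) = Gt t m * Gt (fun j => t (m + j)) n := by
  unfold Gt; rw [prod_range_add]

lemma Gt_anti (t : ℕ → ℝ) {m n : ℕ} (h : m ≤ n) : Gt t n ≤ Gt t m := by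
  obtain ⟨r, rfl⟩ := Nat.exists_eq_add_of_le h
  rw [Gt_add]
  exact mul_le_of_le_one_right (Gt_nonneg _ _) (Gt_le_one _ _)

/-- a rational solution of the recurrence is far from the integers in every window -/
lemma big_term (h q m : ℕ) (hq0' : 1 ≤ q) (hqF : q ≤ 4 * Nat.fib h) (t : ℕ → ℝ) (n : ℕ → ℤ)
    (htn : ∀ j, t j = (n j : ℝ) / q) (hn : ∀ j, n (j + 2) = n (j + 1) + n j)
    (hnd : ∀ j, ¬ ((q : ℤ) ∣ n j ∧ (q : ℤ) ∣ n (j + 1))) :
    ∃ i < 2 * h + 2, 1 / 4 ≤ |t (m + i) - round (t (m + i))| := by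
  have hq0 : (0 : ℝ) < q := by exact_mod_cast hq0'
  by_contra hcon
  push Not at hcon
  set v : ℕ → ℤ := fun i => n (m + i) - q * round (t (m + i)) with hv
  have hvr : ∀ i, ((v i : ℤ) : ℝ) = q * (t (m + i) - round (t (m + i))) := by
    intro i
    rw [hv]; push_cast
    rw [htn]
    field_simp
  have hsmall : ∀ i, i < 2 * h + 2 → 4 * |v i| < q := by
    intro i hi
    have h1 := hcon i hi
    have h2 : 4 * |((v i : ℤ) : ℝ)| < q := by
      rw [hvr, abs_mul, abs_of_pos hq0]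
      nlinarith
    have h3 : ((4 * |v i| : ℤ) : ℝ) < ((q : ℤ) : ℝ) := by push_cast; exact h2
    exact_mod_cast h3
  have hrec : ∀ i, i + 2 < 2 * h + 2 → v (i + 2) = v (i + 1) + v i := by
    intro i hi
    have hd : (q : ℤ) ∣ v (i + 2) - (v (i + 1) + v i) := by
      have e1 : n (m + (i + 2)) = n (m + (i + 1)) + n (m + i) := hn (m + i)
      refine ⟨-round (t (m + (i + 2))) + round (t (m + (i + 1))) + round (t (m + i)), ?_⟩
      simp only [hv]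
      rw [e1]; ring
    have h1 := hsmall i (by omega)
    have h2 := hsmall (i + 1) (by omega)
    have h3 := hsmall (i + 2) (by omega)
    have h4 := Int.eq_zero_of_abs_lt_dvd hd (by
      have h5 : |v (i + 2) - (v (i + 1) + v i)| ≤ |v (i + 2)| + |v (i + 1) + v i| := abs_sub _ _
      have h6 : |v (i + 1) + v i| ≤ |v (i + 1)| + |v i| := abs_add_le _ _
      omega)
    omega
  have hnz : ¬ (v h = 0 ∧ v (h + 1) = 0) := by
    rintro ⟨h1, h2⟩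
    apply hnd (m + h)
    constructor
    · refine ⟨round (t (m + h)), ?_⟩
      simp only [hv] at h1; linarith
    · refine ⟨round (t (m + (h + 1))), ?_⟩
      simp only [hv] at h2
      rw [show m + h + 1 = m + (h + 1) by ring]; linarith
  have h1 := stay_small h v hrec ((q + 3) / 4) (fun i hi => by
    have := hsmall i hi
    omega) hnz
  omega

lemma window2 (h q m : ℕ) (hq0 : 1 ≤ q) (hqF : q ≤ 4 * Nat.fib h) (t : ℕ → ℝ) (n : ℕ → ℤ)
    (htn : ∀ j, t j = (n j : ℝ) / q) (hn : ∀ j, n (j + 2) = n (j + 1) + n j)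
    (hnd : ∀ j, ¬ ((q : ℤ) ∣ n j ∧ (q : ℤ) ∣ n (j + 1))) :
    Gt (fun j => t (m + j)) (2 * h + 2) ≤ 7 / 8 := by
  classical
  obtain ⟨i, hi, h1⟩ := big_term h q m hq0 hqF t n htn hn hnd
  unfold Gt
  rw [← mul_prod_erase (range (2 * h + 2)) _ (mem_range.2 hi)]
  have h2 := cos_far (t (m + i)) (by linarith)
  have h3 : ∏ x ∈ (range (2 * h + 2)).erase i, (1 + Real.cos (2 * Real.pi * t (m + x))) / 2 ≤ 1 :=
    prod_le_one (fun j _ => (fac_bounds _).1) fun j _ => (fac_bounds _).2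
  have h4 := (fac_bounds (t (m + i))).1
  nlinarith

theorem decay2 (h q i r : ℕ) (hq0 : 1 ≤ q) (hqF : q ≤ 4 * Nat.fib h) (t : ℕ → ℝ) (n : ℕ → ℤ)
    (htn : ∀ j, t j = (n j : ℝ) / q) (hn : ∀ j, n (j + 2) = n (j + 1) + n j)
    (hnd : ∀ j, ¬ ((q : ℤ) ∣ n j ∧ (q : ℤ) ∣ n (j + 1))) :
    Gt t (i * (2 * h + 2) + r) ≤ (7 / 8 : ℝ) ^ i := by
  rw [Gt_add]
  refine (mul_le_of_le_one_right (Gt_nonneg _ _) (Gt_le_one _ _)).trans ?_
  induction i with
  | zero => simp [Gt]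
  | succ i ih =>
    rw [Nat.succ_mul, Gt_add, pow_succ]
    exact mul_le_mul ih (window2 h q _ hq0 hqF t n htn hn hnd) (Gt_nonneg _ _) (by positivity)

lemma fib_sq_le (t : ℕ) : Nat.fib t * Nat.fib t ≤ Nat.fib (2 * t) := by
  rw [Nat.fib_two_mul]
  have h : Nat.fib t ≤ Nat.fib (t + 1) := Nat.fib_le_fib_succ
  exact Nat.mul_le_mul_left _ (by omega)

lemma decay_R2 (d t₁ i r : ℕ) (z : (ℕ × ℕ) × (ℕ × ℕ)) (hz : z ∈ R2 d (Nat.fib t₁))
    (hz2 : z ≠ ((1, 0), (1, 0))) : Gt (tz d z) (i * (4 * t₁ + 2) + r) ≤ (7 / 8 : ℝ) ^ i := by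
  rw [mem_R2, mem_RX, mem_RX] at hz
  obtain ⟨⟨⟨r1, r2, r3, r4⟩, ⟨r5, r6, r7, r8⟩⟩, r9⟩ := hz
  have hr1 : (0 : ℝ) < z.1.1 := by exact_mod_cast r1
  have hr5 : (0 : ℝ) < z.2.1 := by exact_mod_cast r5
  set N : ℕ → ℤ := fun j => Nat.fib (j + 1) * ((z.1.2 : ℤ) * z.2.1) +
    Nat.fib (j + 1 + d) * ((z.2.2 : ℤ) * z.1.1) with hN
  have hNrec : ∀ j, N (j + 2) = N (j + 1) + N j := by
    intro j
    simp only [hN]
    have e1 : Nat.fib (j + 2 + 1) = Nat.fib (j + 1) + Nat.fib (j + 1 + 1) := Nat.fib_add_two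
    have e2 : Nat.fib (j + 2 + 1 + d) = Nat.fib (j + 1 + d) + Nat.fib (j + 1 + 1 + d) := by
      rw [show j + 2 + 1 + d = (j + 1 + d) + 2 by ring, Nat.fib_add_two,
        show j + 1 + d + 1 = j + 1 + 1 + d by ring]
    rw [e1, e2]; push_cast; ring
  have hval : ∀ j, tz d z j = ((N j : ℤ) : ℝ) / ((z.1.1 * z.2.1 : ℕ) : ℝ) := by
    intro j
    unfold tz tt
    simp only [hN]
    push_cast
    field_simp
  have hnd : ∀ j, ¬ (((z.1.1 * z.2.1 : ℕ) : ℤ) ∣ N j ∧ ((z.1.1 * z.2.1 : ℕ) : ℤ) ∣ N (j + 1)) := by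
    rintro j ⟨h1, h2⟩
    have hall := dvd_all N hNrec (k := j + 1) (by omega) (by simpa using h1) h2
    obtain ⟨a1, a2⟩ := core_dvd r1 r5 r9 hall
    have key : ∀ a q : ℕ, 1 ≤ q → a < q → a.Coprime q → (q : ℤ) ∣ (a : ℤ) → q = 1 ∧ a = 0 := by
      intro a q hq haq hc hd
      have hd' : q ∣ a := by exact_mod_cast hd
      have ha : a = 0 := Nat.eq_zero_of_dvd_of_lt hd' haq
      subst ha
      exact ⟨(Nat.coprime_zero_left q).1 hc, rfl⟩
    obtain ⟨b1, b2⟩ := key _ _ r1 r3 r4 a1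
    obtain ⟨b3, b4⟩ := key _ _ r5 r7 r8 a2
    exact hz2 (Prod.ext (Prod.ext b1 b2) (Prod.ext b3 b4))
  have hqF : z.1.1 * z.2.1 ≤ 4 * Nat.fib (2 * t₁) := by
    have := fib_sq_le t₁
    have := Nat.mul_le_mul r2 r6
    omega
  have := decay2 (2 * t₁) (z.1.1 * z.2.1) i r (Nat.mul_pos r1 r5) hqF (tz d z) N hval hNrec hnd
  rwa [show 2 * (2 * t₁) + 2 = 4 * t₁ + 2 by ring] at this

/-! ### the error sums -/

/-- the nontrivial pairs -/
noncomputable def R3 (d X : ℕ) : Finset ((ℕ × ℕ) × (ℕ × ℕ)) :=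
  (R2 d X).filter (fun z => z ≠ ((1, 0), (1, 0)))

lemma mem_R3 {d X : ℕ} {z : (ℕ × ℕ) × (ℕ × ℕ)} : z ∈ R3 d X ↔ z ∈ R2 d X ∧ z ≠ ((1, 0), (1, 0)) := by
  unfold R3; rw [mem_filter]

/-- the total error of the sieve -/
noncomputable def SE2 (d w D X : ℕ) : ℝ := ∑ z ∈ R3 d X, Gt (tz d z) w * (kap D z.1.1 * kap D z.2.1)

lemma SE2_step {d w D t : ℕ} (ht : 1 ≤ t) (htw : 8 * (t + 1) ≤ w) (hD : 1 ≤ D) :
    SE2 d w D (Nat.fib (t + 1)) ≤ SE2 d w D (Nat.fib t) +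
      (1 + 2 * Real.log D) ^ 18 * (44200 * 0.875 ^ t) := by
  classical
  have hlogD : 0 ≤ Real.log D := Real.log_natCast_nonneg D
  set X := Nat.fib t with hX
  set X' := Nat.fib (t + 1) with hX'
  have hXX : X ≤ X' := Nat.fib_le_fib_succ
  have hX1 : 1 ≤ X := Nat.fib_pos.2 ht
  set P : ℝ := (1 + 2 * Real.log D) ^ 9 with hP
  have hP0 : 0 ≤ P := by positivity
  have hPP : (1 + 2 * Real.log D) ^ 18 = P ^ 2 := by rw [hP]; ring
  have hRX : ∀ u ∈ RX X, u ∈ RX X' := by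
    intro u hu
    rw [mem_RX] at hu ⊢
    obtain ⟨a, b, c, d'⟩ := hu
    exact ⟨a, b.trans hXX, c, d'⟩
  have hsub : R3 d X ⊆ R3 d X' := by
    intro z hz
    rw [mem_R3, mem_R2] at hz ⊢
    exact ⟨⟨⟨hRX _ hz.1.1.1, hRX _ hz.1.1.2⟩, hz.1.2⟩, hz.2⟩
  unfold SE2
  rw [← sum_sdiff hsub, add_comm]
  gcongr
  have h1 : ∀ z ∈ R3 d X' \ R3 d X, Gt (tz d z) w * (kap D z.1.1 * kap D z.2.1) ≤
        Gt (tz d z) (8 * (t + 1)) * (P ^ 2 * (2 / 1.264 ^ t)) := by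
    intro z hz
    rw [Finset.mem_sdiff, mem_R3, mem_R3, mem_R2, mem_R2, mem_RX, mem_RX, mem_RX, mem_RX] at hz
    obtain ⟨⟨⟨⟨⟨r1, r2, r3, r4⟩, ⟨r5, r6, r7, r8⟩⟩, r9⟩, r10⟩, hf⟩ := hz
    have hbig : X < z.1.1 ∨ X < z.2.1 := by
      by_contra hc
      push Not at hc
      exact hf ⟨⟨⟨⟨r1, hc.1, r3, r4⟩, ⟨r5, hc.2, r7, r8⟩⟩, r9⟩, r10⟩
    have hprod : X ≤ z.1.1 * z.2.1 := by
      rcases hbig with h | h
      · exact h.le.trans (Nat.le_mul_of_pos_right _ r5)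
      · exact h.le.trans (Nat.le_mul_of_pos_left _ r1)
    have k1 := kap_le D z.1.1 hD r1
    have k2 := kap_le D z.2.1 hD r5
    have s1 : (0 : ℝ) < √(z.1.1 : ℝ) := Real.sqrt_pos.2 (by exact_mod_cast r1)
    have s2 : (0 : ℝ) < √(z.2.1 : ℝ) := Real.sqrt_pos.2 (by exact_mod_cast r5)
    have h3 : kap D z.1.1 * kap D z.2.1 ≤ P ^ 2 * (2 / 1.264 ^ t) := by
      calc kap D z.1.1 * kap D z.2.1 ≤ (P / √(z.1.1 : ℝ)) * (P / √(z.2.1 : ℝ)) :=
            mul_le_mul k1 k2 (kap_nonneg _ _) (by positivity)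
        _ = P ^ 2 / √((z.1.1 * z.2.1 : ℕ) : ℝ) := by
            push_cast
            rw [Real.sqrt_mul (Nat.cast_nonneg _)]
            field_simp
        _ ≤ _ := by
            have h4 : (1.264 : ℝ) ^ t / 2 ≤ √((z.1.1 * z.2.1 : ℕ) : ℝ) := by
              refine (sqrt_fib t ht).trans ?_
              apply Real.sqrt_le_sqrt
              exact_mod_cast hprod
            have hp : (0 : ℝ) < 1.264 ^ t / 2 := by positivity
            rw [div_eq_mul_inv]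
            apply mul_le_mul_of_nonneg_left _ (by positivity)
            rw [← one_div, div_le_div_iff₀ (by linarith) (by positivity)]
            linarith
    exact mul_le_mul (Gt_anti _ htw) h3 (mul_nonneg (kap_nonneg _ _) (kap_nonneg _ _)) (Gt_nonneg _ _)
  refine (sum_le_sum h1).trans ?_
  rw [← sum_mul]
  have h2 : ∑ z ∈ R3 d X' \ R3 d X, Gt (tz d z) (8 * (t + 1)) ≤ 20000 * (ρ ^ 8) ^ (t + 1) := by
    refine le_trans ?_ (farey2 d (t + 1) (by omega))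
    exact sum_le_sum_of_subset_of_nonneg (sdiff_subset.trans (filter_subset _ _))
      fun z _ _ => Gt_nonneg _ _
  have h3 : (ρ ^ 8) ^ (t + 1) ≤ 1.105 ^ (t + 1) := by
    have h4 := rho_bounds
    have h5 : 0 ≤ ρ := by linarith [h4.1]
    apply pow_le_pow_left₀ (by positivity)
    calc ρ ^ 8 ≤ 1.0125 ^ 8 := by gcongr; exact h4.2
      _ ≤ 1.105 := by norm_num
  calc (∑ z ∈ R3 d X' \ R3 d X, Gt (tz d z) (8 * (t + 1))) * (P ^ 2 * (2 / 1.264 ^ t)) ≤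
      (20000 * 1.105 ^ (t + 1)) * (P ^ 2 * (2 / 1.264 ^ t)) := by
        gcongr
        linarith
    _ = P ^ 2 * (44200 * (1.105 / 1.264) ^ t) := by rw [div_pow, pow_succ]; ring
    _ ≤ (1 + 2 * Real.log D) ^ 18 * (44200 * 0.875 ^ t) := by
        rw [hPP]
        gcongr
        norm_num

lemma SE2_le {d w D t₁ : ℕ} (ht : 1 ≤ t₁) (hD : 1 ≤ D) (T : ℕ) (hT : t₁ ≤ T) (hTw : 8 * T ≤ w) :
    SE2 d w D (Nat.fib T) ≤ SE2 d w D (Nat.fib t₁) + (1 + 2 * Real.log D) ^ 18 * (353600 * 0.875 ^ t₁) := by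
  have hlogD : 0 ≤ Real.log D := Real.log_natCast_nonneg D
  have key : SE2 d w D (Nat.fib T) ≤ SE2 d w D (Nat.fib t₁) +
      (1 + 2 * Real.log D) ^ 18 * (44200 * ∑ t ∈ Ico t₁ T, (0.875 : ℝ) ^ t) := by
    induction T, hT using Nat.le_induction with
    | base => simp
    | succ T hT ih =>
      have h1 := ih (by omega)
      have h2 := SE2_step (d := d) (w := w) (D := D) (t := T) (by omega) hTw hD
      rw [sum_Ico_succ_top hT]
      rw [mul_add 44200, mul_add ((1 + 2 * Real.log D) ^ 18)]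
      linarith
  refine key.trans ?_
  have h2 : ∑ t ∈ Ico t₁ T, (0.875 : ℝ) ^ t ≤ 0.875 ^ t₁ / (1 - 0.875) :=
    geom_sum_Ico_le_of_lt_one (by norm_num) (by norm_num)
  have h3 : (44200 : ℝ) * ∑ t ∈ Ico t₁ T, (0.875 : ℝ) ^ t ≤ 353600 * 0.875 ^ t₁ := by
    have : (44200 : ℝ) * (0.875 ^ t₁ / (1 - 0.875)) ≤ 353600 * 0.875 ^ t₁ := by
      rw [← mul_div_assoc, div_le_iff₀ (by norm_num)]
      have : (0 : ℝ) < 0.875 ^ t₁ := by positivity
      linarith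
    linarith
  gcongr

lemma card_R3 (d X : ℕ) : ((R3 d X).card : ℝ) ≤ (X : ℝ) ^ 4 := by
  have h1 : (R3 d X).card ≤ (RX X ×ˢ RX X).card :=
    card_le_card ((filter_subset _ _).trans (filter_subset _ _))
  rw [card_product] at h1
  have h2 := card_RX X
  have h3 : ((R3 d X).card : ℝ) ≤ ((RX X).card : ℝ) * ((RX X).card : ℝ) := by exact_mod_cast h1
  have h4 : (0 : ℝ) ≤ ((RX X).card : ℝ) := Nat.cast_nonneg _
  calc ((R3 d X).card : ℝ) ≤ ((RX X).card : ℝ) * ((RX X).card : ℝ) := h3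
    _ ≤ (X : ℝ) ^ 2 * (X : ℝ) ^ 2 := by gcongr
    _ = _ := by ring

lemma SE2_base {d w D t₁ i r : ℕ} (hD : 1 ≤ D) (hw : w = i * (4 * t₁ + 2) + r) :
    SE2 d w D (Nat.fib t₁) ≤ (Nat.fib t₁ : ℝ) ^ 4 * ((7 / 8 : ℝ) ^ i * (1 + 2 * Real.log D) ^ 18) := by
  have hlogD : 0 ≤ Real.log D := Real.log_natCast_nonneg D
  unfold SE2
  have h1 : ∀ z ∈ R3 d (Nat.fib t₁), Gt (tz d z) w * (kap D z.1.1 * kap D z.2.1) ≤
      (7 / 8 : ℝ) ^ i * (1 + 2 * Real.log D) ^ 18 := by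
    intro z hz
    rw [mem_R3] at hz
    have h2 := decay_R2 d t₁ i r z hz.1 hz.2
    rw [← hw] at h2
    rw [mem_R2, mem_RX, mem_RX] at hz
    obtain ⟨⟨⟨⟨r1, r2, r3, r4⟩, ⟨r5, r6, r7, r8⟩⟩, r9⟩, r10⟩ := hz
    have h4 : ∀ q : ℕ, 1 ≤ q → kap D q ≤ (1 + 2 * Real.log D) ^ 9 := by
      intro q hq
      refine (kap_le D q hD hq).trans ?_
      apply div_le_self (by positivity)
      rw [Real.one_le_sqrt]
      exact_mod_cast hq
    have h5 : kap D z.1.1 * kap D z.2.1 ≤ (1 + 2 * Real.log D) ^ 18 := by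
      calc kap D z.1.1 * kap D z.2.1 ≤ (1 + 2 * Real.log D) ^ 9 * (1 + 2 * Real.log D) ^ 9 :=
            mul_le_mul (h4 _ r1) (h4 _ r5) (kap_nonneg _ _) (by positivity)
        _ = _ := by ring
    exact mul_le_mul h2 h5 (mul_nonneg (kap_nonneg _ _) (kap_nonneg _ _)) (by positivity)
  refine (sum_le_sum h1).trans ?_
  rw [sum_const, nsmul_eq_mul]
  exact mul_le_mul_of_nonneg_right (card_R3 _ _) (by positivity)

end Pool.Agent.K4H3.PG
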