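import Mathlib
import Pool.Agent.K4H3.PG.P5
import Pool.Agent.K4H3.CT.C9

/-! The two-dimensional sieve. -/

set_option autoImplicit false

namespace Pool.Agent.K4H3.PG
open Finset
open Pool.Agent.H807R2.Dav
open Pool.Agent.K4H3.CT
open Pool.Agent.W301.SS (orth nu mv DD DD_pos nu_eq nu_nonneg)

/-- the list of the pairs `(F_{j+1}, F_{j+1+d})` -/
def FL (d : ℕ) : ℕ → List (ℤ × ℤ)
  | 0 => []
  | (j + 1) => ((Nat.fib (j + 1) : ℤ), (Nat.fib (j + 1 + d) : ℤ)) :: FL d j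

lemma G2_FL (d w : ℕ) (α β : ℝ) : G2 (FL d w) (α, β) = Gt (tt d α β) w := by
  induction w with
  | zero => rfl
  | succ w ih =>
    rw [FL, G2_cons, ih, Gt, Gt, prod_range_succ, mul_comm]
    congr 3

lemma Rch_FL (d w : ℕ) (x : ℤ × ℤ) (hx : x ∈ Rch el (FL d w)) : 0 ≤ x.1 ∧ x.1 ≤ x.2 := by
  induction w generalizing x with
  | zero =>
    have : x = 0 := hx
    rw [this]; simp
  | succ w ih =>
    obtain ⟨y, hy, v, hv, rfl⟩ := hx
    have h1 := ih y hy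
    have h2 := el_ne hv
    have h3 : (Nat.fib (w + 1) : ℤ) ≤ Nat.fib (w + 1 + d) := by exact_mod_cast Nat.fib_mono (by omega)
    have h4 : (0 : ℤ) ≤ Nat.fib (w + 1) := Int.natCast_nonneg _
    have e1 : (y + v • ((Nat.fib (w + 1) : ℤ), (Nat.fib (w + 1 + d) : ℤ))).1 = y.1 + v * Nat.fib (w + 1) := by simp
    have e2 : (y + v • ((Nat.fib (w + 1) : ℤ), (Nat.fib (w + 1 + d) : ℤ))).2 = y.2 + v * Nat.fib (w + 1 + d) := by simp
    rw [e1, e2]
    constructor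
    · nlinarith [mul_nonneg h2.1 h4]
    · nlinarith [mul_le_mul_of_nonneg_left h3 h2.1]

lemma FL_fst (d w : ℕ) : (FL d w).map (AddMonoidHom.fst ℤ ℤ) = Fl 0 w := by
  induction w with
  | zero => rfl
  | succ w ih =>
    rw [FL, List.map_cons, ih, Fl_succ, zero_add]
    rfl

lemma point2 (d w : ℕ) (z : ℤ) : Ev el (FL d w) (fun x => if x.1 = z then (1 : ℝ) else 0) ≤
    2 * (5 / 8 : ℝ) ^ w := by
  have h := el_point w 0 z
  rw [← FL_fst d w, Ev_map] at h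
  simpa using h

/-- the joint law modulo `m`, `m'` -/
lemma el_mod2 {m m' : ℕ} (hm : 1 ≤ m) (hm' : 1 ≤ m') (L : List (ℤ × ℤ)) (y1 y2 : ℤ) :
    |Ev el L (fun x => (if (m : ℤ) ∣ y1 + x.1 then (1 : ℝ) else 0) * (if (m' : ℤ) ∣ y2 + x.2 then (1 : ℝ) else 0)) -
      1 / (m * m')| ≤
      1 / (m * m') * ∑ r ∈ range m, ∑ r' ∈ range m', if r = 0 ∧ r' = 0 then 0 else
        G2 L ((r : ℝ) / m, (r' : ℝ) / m') := by
  have hm0 : (0 : ℝ) < m := by exact_mod_cast hm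
  have hm0' : (0 : ℝ) < m' := by exact_mod_cast hm'
  have hmc : (m : ℂ) ≠ 0 := by exact_mod_cast hm0.ne'
  have hmc' : (m' : ℂ) ≠ 0 := by exact_mod_cast hm0'.ne'
  set f : ℤ × ℤ → ℝ := fun x => (if (m : ℤ) ∣ y1 + x.1 then (1 : ℝ) else 0) *
    (if (m' : ℤ) ∣ y2 + x.2 then (1 : ℝ) else 0) with hf
  set T : ℕ → ℕ → ℂ := fun r r' => ee ((y1 : ℝ) * ((r : ℝ) / m) + (y2 : ℝ) * ((r' : ℝ) / m')) *
    Ev el L (fun x => ee (ph ((r : ℝ) / m, (r' : ℝ) / m') x)) with hT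
  have key : ((m : ℂ) * m') * ((Ev el L f : ℝ) : ℂ) = ∑ r ∈ range m, ∑ r' ∈ range m', T r r' := by
    simp only [hT]
    simp_rw [← Ev_mulC, ← Ev_sum]
    rw [Ev_ofReal, ← Ev_mulC]
    congr 1
    funext x
    have h1 := orth hm (y1 + x.1)
    have h2 := orth hm' (y2 + x.2)
    have e : ∀ r ∈ range m, ∀ r' ∈ range m',
        ee ((y1 : ℝ) * ((r : ℝ) / m) + (y2 : ℝ) * ((r' : ℝ) / m')) * ee (ph ((r : ℝ) / m, (r' : ℝ) / m') x) =
        ee (((y1 + x.1 : ℤ) : ℝ) * ((r : ℝ) / m)) * ee (((y2 + x.2 : ℤ) : ℝ) * ((r' : ℝ) / m')) := by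
      intro r _ r' _
      rw [← ee_add, ← ee_add]; congr 1; unfold ph; push_cast; ring
    rw [sum_congr rfl fun r hr => sum_congr rfl fun r' hr' => e r hr r' hr', ← sum_mul_sum, h1, h2]
    simp only [hf]
    split_ifs <;> simp
  have e0 : T 0 0 = 1 := by
    simp only [hT]
    have : ∀ x : ℤ × ℤ, ph ((0 : ℝ), (0 : ℝ)) x = 0 := by intro x; unfold ph; simp
    simp only [Nat.cast_zero, zero_div, mul_zero, add_zero, ee_zero, one_mul, this]
    exact Ev_const el_law L (1 : ℂ)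
  have key2 : ∑ r ∈ range m, ∑ r' ∈ range m', T r r' = 1 +
      ∑ r ∈ range m, ∑ r' ∈ range m', if r = 0 ∧ r' = 0 then 0 else T r r' := by
    have e1 : ∀ r ∈ range m, ∀ r' ∈ range m', T r r' =
        (if r = 0 then (if r' = 0 then (1 : ℂ) else 0) else 0) + if r = 0 ∧ r' = 0 then 0 else T r r' := by
      intro r _ r' _
      by_cases h1 : r = 0
      · by_cases h2 : r' = 0
        · rw [h1, h2, e0]; simp
        · simp [h1, h2]
      · simp [h1]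
    rw [sum_congr rfl fun r hr => sum_congr rfl fun r' hr' => e1 r hr r' hr']
    simp_rw [sum_add_distrib]
    congr 1
    rw [sum_eq_single 0]
    · simp only [if_true]
      rw [sum_eq_single 0]
      · simp
      · intro b _ hb; rw [if_neg hb]
      · intro h; exact absurd (mem_range.2 (by omega)) h
    · intro b _ hb
      apply sum_eq_zero; intro _ _
      rw [if_neg hb]
    · intro h; exact absurd (mem_range.2 (by omega)) h
  rw [key2] at key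
  have h1 : (m * m' : ℝ) * |Ev el L f - 1 / (m * m')| = ‖((m : ℂ) * m') * ((Ev el L f : ℝ) : ℂ) - 1‖ := by
    have e1 : ((m : ℂ) * m') * ((Ev el L f : ℝ) : ℂ) - 1 = ((m : ℂ) * m') * ((Ev el L f - 1 / (m * m') : ℝ) : ℂ) := by
      push_cast
      field_simp
    rw [e1, norm_mul, norm_mul, Complex.norm_natCast, Complex.norm_natCast, Complex.norm_real, Real.norm_eq_abs]
  have h2 : ‖((m : ℂ) * m') * ((Ev el L f : ℝ) : ℂ) - 1‖ ≤
      ∑ r ∈ range m, ∑ r' ∈ range m', if r = 0 ∧ r' = 0 then 0 else G2 L ((r : ℝ) / m, (r' : ℝ) / m') := by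
    rw [key, add_sub_cancel_left]
    refine (norm_sum_le _ _).trans (sum_le_sum fun r _ => (norm_sum_le _ _).trans (sum_le_sum fun r' _ => ?_))
    split_ifs
    · simp
    · simp only [hT]
      rw [norm_mul, norm_ee, one_mul, four_el2]
  rw [← h1] at h2
  rw [one_div_mul_eq_div, le_div_iff₀ (by positivity)]
  linarith

lemma lowest0 {m X : ℕ} (hm : 1 ≤ m) (hmX : m ≤ X) (g : ℝ → ℝ) (hg : ∀ x, 0 ≤ g x) :
    ∑ r ∈ range m, g ((r : ℝ) / m) ≤ ∑ z ∈ RX X, if z.1 ∣ m then g ((z.2 : ℝ) / z.1) else 0 := by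
  classical
  have hr : range m = insert 0 (Ioo 0 m) := by
    ext i; simp only [mem_range, mem_insert, mem_Ioo]; omega
  rw [hr, sum_insert (by simp)]
  have h1 := lowest hm hmX g hg
  have h2 : (1, 0) ∉ (RX X).filter (fun z => 2 ≤ z.1) := by
    rw [mem_filter]; rintro ⟨_, h⟩; simp at h
  have h3 : insert (1, 0) ((RX X).filter (fun z => 2 ≤ z.1)) ⊆ RX X := by
    intro z hz
    rw [mem_insert] at hz
    rcases hz with h | h
    · rw [h, mem_RX]
      exact ⟨le_rfl, hm.trans hmX, by norm_num, Nat.coprime_one_right 0⟩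
    · exact (mem_filter.1 h).1
  have h4 := sum_le_sum_of_subset_of_nonneg (f := fun z : ℕ × ℕ => if z.1 ∣ m then g ((z.2 : ℝ) / z.1) else 0) h3
    (fun z _ _ => by split_ifs; exacts [hg _, le_rfl])
  rw [sum_insert h2] at h4
  simp only [one_dvd, if_true] at h4
  have e : g (((0 : ℕ) : ℝ) / ((1 : ℕ) : ℝ)) = g (((0 : ℕ) : ℝ) / m) := by simp
  rw [e] at h4
  linarith

/-- the sum over the pairs of residues in lowest terms -/
lemma lowest2 {d m m' X w : ℕ} (hm : 1 ≤ m) (hmX : m ≤ X) (hm' : 1 ≤ m') (hmX' : m' ≤ X)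
    (hc : m'.Coprime (Nat.fib d)) :
    (∑ r ∈ range m, ∑ r' ∈ range m', if r = 0 ∧ r' = 0 then 0 else
        G2 (FL d w) ((r : ℝ) / m, (r' : ℝ) / m')) ≤
      ∑ z ∈ R3 d X, if z.1.1 ∣ m then (if z.2.1 ∣ m' then Gt (tz d z) w else 0) else 0 := by
  classical
  have hm0 : (0 : ℝ) < m := by exact_mod_cast hm
  have hm0' : (0 : ℝ) < m' := by exact_mod_cast hm'
  set g : ℝ → ℝ → ℝ := fun x y => if x = 0 ∧ y = 0 then 0 else G2 (FL d w) (x, y) with hg
  have hg0 : ∀ x y, 0 ≤ g x y := by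
    intro x y; simp only [hg]; split_ifs; exacts [le_rfl, G2_nonneg _ _]
  have e1 : ∀ r ∈ range m, ∀ r' ∈ range m', (if r = 0 ∧ r' = 0 then 0 else
        G2 (FL d w) ((r : ℝ) / m, (r' : ℝ) / m')) = g ((r : ℝ) / m) ((r' : ℝ) / m') := by
    intro r _ r' _
    simp only [hg]
    have h1 : ((r : ℝ) / m = 0 ∧ (r' : ℝ) / m' = 0) ↔ (r = 0 ∧ r' = 0) := by
      rw [div_eq_zero_iff, div_eq_zero_iff]
      constructor
      · rintro ⟨h1, h2⟩
        constructor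
        · rcases h1 with h | h
          · exact_mod_cast h
          · exact absurd h hm0.ne'
        · rcases h2 with h | h
          · exact_mod_cast h
          · exact absurd h hm0'.ne'
      · rintro ⟨h1, h2⟩; rw [h1, h2]; simp
    by_cases h : r = 0 ∧ r' = 0
    · rw [if_pos h, if_pos (h1.2 h)]
    · rw [if_neg h, if_neg (fun h2 => h (h1.1 h2))]
  rw [sum_congr rfl fun r hr => sum_congr rfl fun r' hr' => e1 r hr r' hr']
  have s1 : ∑ r ∈ range m, ∑ r' ∈ range m', g ((r : ℝ) / m) ((r' : ℝ) / m') ≤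
      ∑ r ∈ range m, ∑ z2 ∈ RX X, if z2.1 ∣ m' then g ((r : ℝ) / m) ((z2.2 : ℝ) / z2.1) else 0 :=
    sum_le_sum fun r _ => lowest0 hm' hmX' (g ((r : ℝ) / m)) (hg0 _)
  have s2 : ∑ r ∈ range m, ∑ z2 ∈ RX X, (if z2.1 ∣ m' then g ((r : ℝ) / m) ((z2.2 : ℝ) / z2.1) else 0) ≤
      ∑ z1 ∈ RX X, if z1.1 ∣ m then (∑ z2 ∈ RX X, if z2.1 ∣ m' then g ((z1.2 : ℝ) / z1.1) ((z2.2 : ℝ) / z2.1) else 0) else 0 :=
    lowest0 hm hmX (fun x => ∑ z2 ∈ RX X, if z2.1 ∣ m' then g x ((z2.2 : ℝ) / z2.1) else 0)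
      (fun x => sum_nonneg fun z2 _ => by split_ifs; exacts [hg0 _ _, le_rfl])
  refine (s1.trans s2).trans (le_of_eq ?_)
  have e2 : ∀ z1 ∈ RX X, (if z1.1 ∣ m then (∑ z2 ∈ RX X, if z2.1 ∣ m' then g ((z1.2 : ℝ) / z1.1) ((z2.2 : ℝ) / z2.1) else 0) else 0) =
      ∑ z2 ∈ RX X, if z1.1 ∣ m then (if z2.1 ∣ m' then g ((z1.2 : ℝ) / z1.1) ((z2.2 : ℝ) / z2.1) else 0) else 0 := by
    intro z1 _
    by_cases h : z1.1 ∣ m
    · rw [if_pos h]
      apply sum_congr rfl; intro z2 _; rw [if_pos h]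
    · rw [if_neg h, sum_eq_zero]
      intro z2 _; rw [if_neg h]
  rw [sum_congr rfl e2, ← sum_product']
  symm
  have hsub : R3 d X ⊆ RX X ×ˢ RX X := (filter_subset _ _).trans (filter_subset _ _)
  have e3 : ∀ z ∈ R3 d X, (if z.1.1 ∣ m then (if z.2.1 ∣ m' then Gt (tz d z) w else 0) else 0) =
      (if z.1.1 ∣ m then (if z.2.1 ∣ m' then g ((z.1.2 : ℝ) / z.1.1) ((z.2.2 : ℝ) / z.2.1) else 0) else 0) := by
    intro z hz
    rw [mem_R3, mem_R2, mem_RX, mem_RX] at hz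
    obtain ⟨⟨⟨⟨r1, r2, r3, r4⟩, ⟨r5, r6, r7, r8⟩⟩, r9⟩, r10⟩ := hz
    have hr1 : (0 : ℝ) < z.1.1 := by exact_mod_cast r1
    have hr5 : (0 : ℝ) < z.2.1 := by exact_mod_cast r5
    have hne : ¬ ((z.1.2 : ℝ) / z.1.1 = 0 ∧ (z.2.2 : ℝ) / z.2.1 = 0) := by
      rw [div_eq_zero_iff, div_eq_zero_iff]
      rintro ⟨h1, h2⟩
      have h1' : z.1.2 = 0 := by
        rcases h1 with h | h
        · exact_mod_cast h
        · exact absurd h hr1.ne'
      have h2' : z.2.2 = 0 := by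
        rcases h2 with h | h
        · exact_mod_cast h
        · exact absurd h hr5.ne'
      rw [h1'] at r4
      rw [h2'] at r8
      exact r10 (Prod.ext (Prod.ext ((Nat.coprime_zero_left _).1 r4) h1') (Prod.ext ((Nat.coprime_zero_left _).1 r8) h2'))
    have : g ((z.1.2 : ℝ) / z.1.1) ((z.2.2 : ℝ) / z.2.1) = Gt (tz d z) w := by
      simp only [hg]
      rw [if_neg hne, G2_FL]; rfl
    rw [this]
  rw [sum_congr rfl e3]
  apply sum_subset hsub
  intro z hz hz3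
  rw [mem_product] at hz
  split_ifs with h1 h2
  · have hcop : z.2.1.Coprime (Nat.fib d) := Nat.Coprime.coprime_dvd_left h2 hc
    have htriv : z = ((1, 0), (1, 0)) := by
      by_contra hne
      exact hz3 (mem_R3.2 ⟨mem_R2.2 ⟨hz, hcop⟩, hne⟩)
    rw [htriv]
    simp [hg]
  · rfl
  · rfl

lemma toNat_dvd {a : ℤ} (ha : 0 ≤ a) (m : ℕ) : (m ∣ a.toNat) ↔ ((m : ℤ) ∣ a) := by
  have h2 : ((a.toNat : ℕ) : ℤ) = a := Int.toNat_of_nonneg ha
  conv_rhs => rw [← h2]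
  exact Int.natCast_dvd_natCast.symm

/-- the sieve in dimension two -/
lemma sieve_main2 {d w y1 y2 D X : ℕ} {l1 l2 : ℕ → ℝ} (hl1 : ∀ d, |l1 d| ≤ 1) (hl2 : ∀ d, |l2 d| ≤ 1)
    (hl2c : ∀ a, ¬ a.Coprime (Nat.fib d) → l2 a = 0) (hX : D ^ 2 ≤ X) :
    Ev el (FL d w) (fun x => nu l1 D ((y1 : ℤ) + x.1).toNat * nu l2 D ((y2 : ℤ) + x.2).toNat) ≤
      mv l1 D * mv l2 D + SE2 d w D X := by
  classical
  set I : ℕ → ℕ → ℤ × ℤ → ℝ := fun m m' x => (if (m : ℤ) ∣ (y1 : ℤ) + x.1 then (1 : ℝ) else 0) *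
    (if (m' : ℤ) ∣ (y2 : ℤ) + x.2 then (1 : ℝ) else 0) with hI
  have e1 : Ev el (FL d w) (fun x => nu l1 D ((y1 : ℤ) + x.1).toNat * nu l2 D ((y2 : ℤ) + x.2).toNat) =
      ∑ v ∈ DD D, ∑ u ∈ DD D, (l1 v.1 * l1 v.2) * (l2 u.1 * l2 u.2) *
        Ev el (FL d w) (I (Nat.lcm v.1 v.2) (Nat.lcm u.1 u.2)) := by
    simp_rw [nu_eq, sum_mul_sum]
    rw [Ev_sum]
    apply sum_congr rfl; intro v _
    rw [Ev_sum]
    apply sum_congr rfl; intro u _
    rw [← Ev_mulR]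
    apply Ev_congr_R
    intro x hx
    have hx1 := Rch_FL d w x hx
    simp only [hI]
    rw [if_congr (toNat_dvd (show (0 : ℤ) ≤ (y1 : ℤ) + x.1 by omega) _) rfl rfl,
      if_congr (toNat_dvd (show (0 : ℤ) ≤ (y2 : ℤ) + x.2 by omega) _) rfl rfl]
    ring
  rw [e1]
  have h1 : ∀ v ∈ DD D, ∀ u ∈ DD D, (l1 v.1 * l1 v.2) * (l2 u.1 * l2 u.2) *
        Ev el (FL d w) (I (Nat.lcm v.1 v.2) (Nat.lcm u.1 u.2)) ≤
      (l1 v.1 * l1 v.2 / (Nat.lcm v.1 v.2 : ℝ)) * (l2 u.1 * l2 u.2 / (Nat.lcm u.1 u.2 : ℝ)) +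
      ∑ z ∈ R3 d X, Gt (tz d z) w * ((if z.1.1 ∣ Nat.lcm v.1 v.2 then 1 / (Nat.lcm v.1 v.2 : ℝ) else 0) *
          (if z.2.1 ∣ Nat.lcm u.1 u.2 then 1 / (Nat.lcm u.1 u.2 : ℝ) else 0)) := by
    intro v hv u hu
    have hp := DD_pos hv
    have hp' := DD_pos hu
    set m := Nat.lcm v.1 v.2 with hm
    set m' := Nat.lcm u.1 u.2 with hm'
    have hm0 : (0 : ℝ) < m := by exact_mod_cast hp
    have hm0' : (0 : ℝ) < m' := by exact_mod_cast hp'
    have hDD : ∀ v ∈ DD D, Nat.lcm v.1 v.2 ≤ X := by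
      intro v hv
      refine le_trans ?_ hX
      unfold DD at hv
      rw [mem_product, mem_Icc, mem_Icc] at hv
      calc Nat.lcm v.1 v.2 ≤ v.1 * v.2 := Nat.le_of_dvd (Nat.mul_pos (by omega) (by omega)) (Nat.lcm_dvd_mul _ _)
        _ ≤ D * D := Nat.mul_le_mul (by omega) (by omega)
        _ = D ^ 2 := by ring
    set c : ℝ := (l1 v.1 * l1 v.2) * (l2 u.1 * l2 u.2) with hc
    set p := Ev el (FL d w) (I m m') with hpd
    have hz0 : ∀ z ∈ R3 d X, 0 ≤ Gt (tz d z) w * ((if z.1.1 ∣ m then 1 / (m : ℝ) else 0) *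
          (if z.2.1 ∣ m' then 1 / (m' : ℝ) else 0)) := by
      intro z _
      apply mul_nonneg (Gt_nonneg _ _)
      apply mul_nonneg <;> split_ifs <;> positivity
    have hmain : (l1 v.1 * l1 v.2 / (m : ℝ)) * (l2 u.1 * l2 u.2 / (m' : ℝ)) = c / (m * m') := by
      rw [hc]; field_simp
    rw [hmain]
    by_cases hc0 : c = 0
    · rw [hc0, zero_mul, zero_div, zero_add]
      exact sum_nonneg hz0
    · have hcop : m'.Coprime (Nat.fib d) := by
        have a1 : u.1.Coprime (Nat.fib d) := by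
          by_contra h; apply hc0; rw [hc, hl2c _ h]; ring
        have a2 : u.2.Coprime (Nat.fib d) := by
          by_contra h; apply hc0; rw [hc, hl2c _ h]; ring
        exact Nat.Coprime.coprime_dvd_left (Nat.lcm_dvd_mul _ _) (Nat.Coprime.mul_left a1 a2)
      have h2 := el_mod2 hp hp' (FL d w) (y1 : ℤ) (y2 : ℤ)
      have h3 := lowest2 (w := w) hp (hDD v hv) hp' (hDD u hu) hcop
      have h4 : |c| ≤ 1 := by
        rw [hc, abs_mul, abs_mul, abs_mul]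
        have b1 := mul_le_one₀ (hl1 v.1) (abs_nonneg _) (hl1 v.2)
        have b2 := mul_le_one₀ (hl2 u.1) (abs_nonneg _) (hl2 u.2)
        exact mul_le_one₀ b1 (by positivity) b2
      have h5 : c * p = c / (m * m') + c * (p - 1 / (m * m')) := by ring
      rw [h5]
      have h6 : c * (p - 1 / (m * m')) ≤ 1 / (m * m') * ∑ z ∈ R3 d X, if z.1.1 ∣ m then (if z.2.1 ∣ m' then Gt (tz d z) w else 0) else 0 := by
        calc c * (p - 1 / (m * m')) ≤ |c * (p - 1 / (m * m'))| := le_abs_self _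
          _ = |c| * |p - 1 / (m * m')| := abs_mul _ _
          _ ≤ 1 * (1 / (m * m') * ∑ z ∈ R3 d X, if z.1.1 ∣ m then (if z.2.1 ∣ m' then Gt (tz d z) w else 0) else 0) := by
              apply mul_le_mul h4 _ (abs_nonneg _) zero_le_one
              exact h2.trans (mul_le_mul_of_nonneg_left h3 (by positivity))
          _ = _ := one_mul _
      have h7 : 1 / ((m : ℝ) * m') * ∑ z ∈ R3 d X, (if z.1.1 ∣ m then (if z.2.1 ∣ m' then Gt (tz d z) w else 0) else 0) =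
          ∑ z ∈ R3 d X, Gt (tz d z) w * ((if z.1.1 ∣ m then 1 / (m : ℝ) else 0) *
          (if z.2.1 ∣ m' then 1 / (m' : ℝ) else 0)) := by
        rw [mul_sum]
        apply sum_congr rfl; intro z _
        by_cases a1 : z.1.1 ∣ m
        · by_cases a2 : z.2.1 ∣ m'
          · simp only [if_pos a1, if_pos a2]
            field_simp
          · simp only [if_pos a1, if_neg a2]; ring
        · simp only [if_neg a1]; ring
      linarith
  refine (sum_le_sum fun v hv => sum_le_sum fun u hu => h1 v hv u hu).trans ?_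
  simp_rw [sum_add_distrib]
  have e2 : ∑ v ∈ DD D, ∑ u ∈ DD D, (l1 v.1 * l1 v.2 / (Nat.lcm v.1 v.2 : ℝ)) * (l2 u.1 * l2 u.2 / (Nat.lcm u.1 u.2 : ℝ)) =
      mv l1 D * mv l2 D := by
    unfold mv
    rw [sum_mul_sum]
  rw [e2]
  apply le_of_eq
  congr 1
  unfold SE2
  have e3 : ∀ v ∈ DD D, ∑ u ∈ DD D, ∑ z ∈ R3 d X, Gt (tz d z) w *
      ((if z.1.1 ∣ Nat.lcm v.1 v.2 then 1 / (Nat.lcm v.1 v.2 : ℝ) else 0) *
          (if z.2.1 ∣ Nat.lcm u.1 u.2 then 1 / (Nat.lcm u.1 u.2 : ℝ) else 0)) =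
      ∑ z ∈ R3 d X, Gt (tz d z) w * ((if z.1.1 ∣ Nat.lcm v.1 v.2 then 1 / (Nat.lcm v.1 v.2 : ℝ) else 0) * kap D z.2.1) := by
    intro v _
    rw [sum_comm]
    apply sum_congr rfl; intro z _
    unfold kap
    rw [mul_sum, mul_sum]
  rw [sum_congr rfl e3, sum_comm]
  apply sum_congr rfl; intro z _
  unfold kap
  rw [← mul_sum]
  congr 1
  rw [sum_mul]

lemma pair_le {d w y1 y2 D X : ℕ} {l1 l2 : ℕ → ℝ} (h1 : l1 1 = 1) (h2 : l2 1 = 1) (hl1 : ∀ d, |l1 d| ≤ 1)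
    (hl2 : ∀ d, |l2 d| ≤ 1) (hl2c : ∀ a, ¬ a.Coprime (Nat.fib d) → l2 a = 0) (hD : 1 ≤ D) (hX : D ^ 2 ≤ X) :
    Ev el (FL d w) (fun x => (if (((y1 : ℤ) + x.1).toNat).Prime then (1 : ℝ) else 0) *
        (if (((y2 : ℤ) + x.2).toNat).Prime then (1 : ℝ) else 0)) ≤
      (D + 1) * (2 * (5 / 8 : ℝ) ^ w) + (mv l1 D * mv l2 D + SE2 d w D X) := by
  have h3 : Ev el (FL d w) (fun x => (if (((y1 : ℤ) + x.1).toNat).Prime then (1 : ℝ) else 0) *
        (if (((y2 : ℤ) + x.2).toNat).Prime then (1 : ℝ) else 0)) ≤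
      Ev el (FL d w) (fun x => (∑ v ∈ range (D + 1), if x.1 = ((v : ℕ) : ℤ) then (1 : ℝ) else 0) +
        nu l1 D ((y1 : ℤ) + x.1).toNat * nu l2 D ((y2 : ℤ) + x.2).toNat) := by
    apply Ev_mono_R el_law.1
    intro x hx
    have hx1 := Rch_FL d w x hx
    have h3 : 0 ≤ ∑ v ∈ range (D + 1), if x.1 = ((v : ℕ) : ℤ) then (1 : ℝ) else 0 :=
      sum_nonneg fun v _ => ind_nonneg _
    have h4 := mul_nonneg (nu_nonneg l1 D ((y1 : ℤ) + x.1).toNat) (nu_nonneg l2 D ((y2 : ℤ) + x.2).toNat)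
    by_cases hp : (((y1 : ℤ) + x.1).toNat).Prime
    · by_cases hp2 : (((y2 : ℤ) + x.2).toNat).Prime
      · rw [if_pos hp, if_pos hp2]
        by_cases hb : D < ((y1 : ℤ) + x.1).toNat ∧ D < ((y2 : ℤ) + x.2).toNat
        · rw [nu_prime h1 hD hp hb.1, nu_prime h2 hD hp2 hb.2]; linarith
        · have hxD : x.1 ≤ D := by
            by_contra hcon
            apply hb
            omega
          have h6 : (1 : ℝ) ≤ ∑ v ∈ range (D + 1), if x.1 = ((v : ℕ) : ℤ) then (1 : ℝ) else 0 := by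
            have h7 : x.1 = ((x.1.toNat : ℕ) : ℤ) := (Int.toNat_of_nonneg hx1.1).symm
            calc (1 : ℝ) = if x.1 = ((x.1.toNat : ℕ) : ℤ) then (1 : ℝ) else 0 := by
                  rw [if_pos h7]
              _ ≤ _ := single_le_sum (f := fun v : ℕ => if x.1 = ((v : ℕ) : ℤ) then (1 : ℝ) else 0)
                  (fun v _ => ind_nonneg _) (mem_range.2 (by omega))
          linarith
      · rw [if_neg hp2, mul_zero]; linarith
    · rw [if_neg hp, zero_mul]; linarith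
  refine h3.trans ?_
  rw [Ev_add, Ev_sum]
  apply add_le_add
  · have h4 : ∀ v ∈ range (D + 1), Ev el (FL d w) (fun x => if x.1 = ((v : ℕ) : ℤ) then (1 : ℝ) else 0) ≤
        2 * (5 / 8 : ℝ) ^ w := fun v _ => point2 d w v
    refine (sum_le_sum h4).trans ?_
    rw [sum_const, card_range, nsmul_eq_mul]; push_cast; exact le_rfl
  · exact sieve_main2 hl1 hl2 hl2c hX

end Pool.Agent.K4H3.PG
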