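import Mathlib
import Pool.Agent.K4H3.PG.P6
import Pool.Agent.K4H3.PG.P1
import Pool.Agent.K4H3.FB.B5

/-! The sieve bound for pairs of terms, uniformly in the shifts and in the distance. -/

set_option autoImplicit false

namespace Pool.Agent.K4H3.PG
open Finset
open Pool.Agent.H807R2.Dav
open Pool.Agent.K4H3.CT hiding ρ rho_bounds
open Pool.Agent.K4H3.FB (ρ rho_eq rho_one_le)
open Pool.Agent.W301.SS (nu mv DD DD_pos nu_eq nu_nonneg sel)
open Pool.Agent.H376R2.MR (sw_rad sw_rad_primeFactors sw_rad_squarefree)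
open scoped goldenRatio

lemma cop_rad {a F : ℕ} (ha : a ≠ 0) (hF : F ≠ 0) : a.Coprime (sw_rad F) ↔ a.Coprime F := by
  have h0 : sw_rad F ≠ 0 := (sw_rad_squarefree F).ne_zero
  rw [← Nat.disjoint_primeFactors ha h0, ← Nat.disjoint_primeFactors ha hF, sw_rad_primeFactors]

lemma rho_rad (F : ℕ) : ρ (sw_rad F) = ρ F := by
  unfold ρ; rw [sw_rad_primeFactors]

lemma ev_big3 : ∃ w₀ : ℕ, ∀ n : ℕ, w₀ ≤ n →
    2880 * (Nat.log 2 n + 1) * (440 * Nat.log 2 n + 2) ≤ n ∧ 880 * Nat.log 2 n + 8 ≤ n ∧ 1 ≤ Nat.log 2 n := by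
  have h1 := tendsto_pow_const_div_const_pow_of_one_lt 3 (r := (2 : ℝ)) (by norm_num)
  have h2 := h1.eventually (gt_mem_nhds (show (0 : ℝ) < 1 by norm_num))
  rw [Filter.eventually_atTop] at h2
  obtain ⟨B, hB⟩ := h2
  obtain ⟨K, hK1, hK2⟩ : ∃ K, B ≤ K ∧ 3000000 ≤ K := ⟨max B 3000000, le_max_left _ _, le_max_right _ _⟩
  refine ⟨2 ^ K, fun n hn => ?_⟩
  have hlog := Nat.log_mono_right (b := 2) hn
  rw [Nat.log_pow (by norm_num)] at hlog
  set L := Nat.log 2 n with hL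
  have hL3 : 3000000 ≤ L := hK2.trans hlog
  have h3 := hB L (hK1.trans hlog)
  rw [div_lt_one (by positivity)] at h3
  have h4 : L ^ 3 < 2 ^ L := by exact_mod_cast h3
  have hn1 : n ≠ 0 := by
    intro h
    rw [h] at hL
    rw [hL] at hL3
    simp at hL3
  have h5 : 2 ^ L ≤ n := Nat.pow_log_le_self 2 hn1
  clear hn hlog hK1 hK2 hB h1 h3
  have h6 : 2880 * (L + 1) * (440 * L + 2) ≤ 3000000 * L ^ 2 := by nlinarith
  have h7 : 3000000 * L ^ 2 ≤ L ^ 3 := by
    calc 3000000 * L ^ 2 ≤ L * L ^ 2 := Nat.mul_le_mul_right _ hL3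
      _ = L ^ 3 := by ring
  have h8 : 880 * L + 8 ≤ L ^ 3 := by
    have : 881 * L ≤ L ^ 2 * L := Nat.mul_le_mul_right _ (by nlinarith)
    calc 880 * L + 8 ≤ 881 * L := by omega
      _ ≤ L ^ 2 * L := this
      _ = L ^ 3 := by ring
  exact ⟨h6.trans (h7.trans (h4.le.trans h5)), h8.trans (h4.le.trans h5), le_trans (by norm_num) hL3⟩

/-- **The sieve bound for pairs.** -/
theorem sieveB2 : ∃ C : ℝ, 0 < C ∧ ∀ d : ℕ, 1 ≤ d → ∀ w : ℕ, 1 ≤ w → ∀ y1 y2 : ℕ,
    Ev el (FL d w) (fun x => (if (((y1 : ℤ) + x.1).toNat).Prime then (1 : ℝ) else 0) *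
        (if (((y2 : ℤ) + x.2).toNat).Prime then (1 : ℝ) else 0)) ≤ C * ρ (Nat.fib d) / (w : ℝ) ^ 2 := by
  obtain ⟨w₀, hw₀⟩ := ev_big3
  set C' : ℝ := 262144 + 262144 * 353600 * 1048576 with hC'
  refine ⟨25600 + 14400 + C' + ((w₀ + 160 : ℕ) : ℝ) ^ 2, by positivity, fun d hd w hw y1 y2 => ?_⟩
  have hw0 : (0 : ℝ) < w := by exact_mod_cast hw
  have hwr : (1 : ℝ) ≤ w := by exact_mod_cast hw
  have hρ := rho_one_le (Nat.fib d)
  have hC'0 : 0 ≤ C' := by rw [hC']; norm_num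
  rcases Nat.lt_or_ge w (w₀ + 160) with hsm | hbg
  · -- small `w`
    have h1 : Ev el (FL d w) (fun x => (if (((y1 : ℤ) + x.1).toNat).Prime then (1 : ℝ) else 0) *
        (if (((y2 : ℤ) + x.2).toNat).Prime then (1 : ℝ) else 0)) ≤ 1 := by
      have := Ev_mono el_law.1 (FL d w) (fun x => (if (((y1 : ℤ) + x.1).toNat).Prime then (1 : ℝ) else 0) *
        (if (((y2 : ℤ) + x.2).toNat).Prime then (1 : ℝ) else 0))
        (fun _ => (1 : ℝ)) (fun x => by split_ifs <;> norm_num)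
      rwa [Ev_const el_law] at this
    refine h1.trans ?_
    rw [le_div_iff₀ (by positivity)]
    have h2 : (w : ℝ) ≤ ((w₀ + 160 : ℕ) : ℝ) := by exact_mod_cast hsm.le
    have h3 : (w : ℝ) ^ 2 ≤ ((w₀ + 160 : ℕ) : ℝ) ^ 2 := pow_le_pow_left₀ hw0.le h2 2
    nlinarith
  · obtain ⟨b1, b2, b3⟩ := hw₀ w (by omega)
    set L := Nat.log 2 w with hL
    have hn : 2 ^ L ≤ w := Nat.pow_log_le_self 2 (by omega)
    have hn2 : w < 2 ^ (L + 1) := Nat.lt_pow_succ_log_self (by norm_num) w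
    set k : ℕ := w / 40 with hk
    set D : ℕ := 2 ^ k with hD
    set T : ℕ := w / 8 with hT
    have hk4 : 4 ≤ k := by omega
    have hD3 : 3 ≤ D := by
      calc 3 ≤ 2 ^ 4 := by norm_num
        _ ≤ 2 ^ k := Nat.pow_le_pow_right (by norm_num) hk4
    obtain ⟨l, l1, l2, l3, l4, l5⟩ := sel D hD3
    have hfd : Nat.fib d ≠ 0 := (Nat.fib_pos.2 hd).ne'
    obtain ⟨l', m1, m2, m3, m4, m5⟩ := selF (sw_rad_squarefree (Nat.fib d)) D hD3
    have hrad1 : 1 ≤ sw_rad (Nat.fib d) := Nat.pos_of_ne_zero (sw_rad_squarefree _).ne_zero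
    rw [rho_eq _ hrad1, rho_rad] at m5
    have m3' : ∀ a, ¬ a.Coprime (Nat.fib d) → (fun a => if a = 0 then 0 else l' a) a = 0 := by
      intro a ha
      simp only
      split_ifs with h0
      · rfl
      · exact m3 a (fun h => ha ((cop_rad h0 hfd).1 h))
    -- modify the weights at `0`
    set l'' : ℕ → ℝ := fun a => if a = 0 then 0 else l' a with hl''
    have m1' : l'' 1 = 1 := by simp [hl'', m1]
    have m2' : ∀ a, |l'' a| ≤ 1 := by
      intro a; simp only [hl'']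
      split_ifs
      · simp
      · exact m2 a
    have hmv : mv l'' D = mv l' D := by
      unfold mv
      apply sum_congr rfl; intro x hx
      unfold DD at hx
      rw [mem_product, mem_Icc, mem_Icc] at hx
      simp only [hl'']
      rw [if_neg (by omega), if_neg (by omega)]
    have hX : D ^ 2 ≤ Nat.fib T := by
      have h1 := fib_ge T (by omega)
      have h2 : (4 : ℝ) * (D : ℝ) ^ 2 ≤ φ ^ T := by
        have h3 : (φ : ℝ) ^ (5 * k) ≤ φ ^ T := pow_le_pow_right₀ Real.one_lt_goldenRatio.le (by omega)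
        refine le_trans ?_ h3
        have h4 : (10 : ℝ) ^ k ≤ φ ^ (5 * k) := by
          rw [pow_mul]
          apply pow_le_pow_left₀ (by norm_num)
          calc (10 : ℝ) ≤ 1.6 ^ 5 := by norm_num
            _ ≤ φ ^ 5 := pow_le_pow_left₀ (by norm_num) phi_bounds.1.le 5
        refine le_trans ?_ h4
        obtain ⟨j, hj⟩ : ∃ j, k = j + 2 := ⟨k - 2, by omega⟩
        rw [hD]; push_cast
        rw [← pow_mul, mul_comm k 2, pow_mul, hj, pow_add, pow_add]
        have h5 : ((2 : ℝ) ^ 2) ^ j ≤ 10 ^ j := pow_le_pow_left₀ (by norm_num) (by norm_num) j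
        have h6 : (0 : ℝ) < 10 ^ j := by positivity
        norm_num at h5 ⊢
        linarith
      have h3 : ((D ^ 2 : ℕ) : ℝ) ≤ Nat.fib T := by push_cast; linarith
      exact_mod_cast h3
    have h1 := pair_le (d := d) (w := w) (y1 := y1) (y2 := y2) (D := D) (X := Nat.fib T) l1 m1' l2 m2' m3'
      (by omega) hX
    rw [hmv] at h1
    refine h1.trans ?_
    -- the logarithm of `D`
    have hlogD : Real.log D = k * Real.log 2 := by rw [hD]; push_cast; rw [Real.log_pow]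
    have hkr : (w : ℝ) / 80 ≤ k := by
      have : w ≤ 80 * k := by omega
      have : (w : ℝ) ≤ 80 * k := by exact_mod_cast this
      linarith
    have hkr2 : (k : ℝ) ≤ w / 40 := by
      have : 40 * k ≤ w := by omega
      have : 40 * (k : ℝ) ≤ w := by exact_mod_cast this
      linarith
    have hk0 : (0 : ℝ) < k := by linarith
    have hl2 := Real.log_two_gt_d9
    have hl2' := Real.log_two_lt_d9
    have hlogD0 : 0 ≤ Real.log D := Real.log_natCast_nonneg D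
    have hlogw : (w : ℝ) / 120 ≤ Real.log D := by rw [hlogD]; nlinarith
    have hlogpos : 0 < Real.log D := lt_of_lt_of_le (by positivity) hlogw
    -- first term
    have t1 : ((D : ℝ) + 1) * (2 * (5 / 8 : ℝ) ^ w) ≤ 25600 / (w : ℝ) ^ 2 := by
      have a1 : (5 / 8 : ℝ) ^ w ≤ (5 / 8) ^ (40 * k) := by
        apply pow_le_pow_of_le_one (by norm_num) (by norm_num); omega
      have a2 : (D : ℝ) * (5 / 8 : ℝ) ^ (40 * k) ≤ ((1 / 2) ^ k) ^ 2 := by
        rw [hD]; push_cast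
        rw [pow_mul, ← mul_pow, ← pow_mul, mul_comm k 2, pow_mul]
        apply pow_le_pow_left₀ (by norm_num); norm_num
      have a3 : ((1 : ℝ) / 2) ^ k ≤ 1 / k := by
        rw [div_pow, one_pow]
        apply div_le_div_of_nonneg_left zero_le_one hk0
        exact_mod_cast (Nat.lt_two_pow_self (n := k)).le
      have a4 : (1 : ℝ) / k ≤ 80 / w := by
        rw [div_le_div_iff₀ hk0 hw0]; linarith
      have a5 : (((1 : ℝ) / 2) ^ k) ^ 2 ≤ (80 / w) ^ 2 := pow_le_pow_left₀ (by positivity) (a3.trans a4) 2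
      have hDr : (1 : ℝ) ≤ D := by exact_mod_cast (by omega : 1 ≤ D)
      calc ((D : ℝ) + 1) * (2 * (5 / 8 : ℝ) ^ w) ≤ (D + D) * (2 * (5 / 8) ^ (40 * k)) := by gcongr
        _ = 4 * (D * (5 / 8 : ℝ) ^ (40 * k)) := by ring
        _ ≤ 4 * (80 / w) ^ 2 := by linarith
        _ = 25600 / (w : ℝ) ^ 2 := by rw [div_pow]; ring
    -- main term
    have t2 : mv l D * mv l' D ≤ 14400 * ρ (Nat.fib d) / (w : ℝ) ^ 2 := by
      calc mv l D * mv l' D ≤ (1 / Real.log D) * (ρ (Nat.fib d) / Real.log D) :=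
            mul_le_mul l4 m5 m4 (by positivity)
        _ = ρ (Nat.fib d) * (1 / Real.log D) ^ 2 := by rw [div_pow]; field_simp
        _ ≤ ρ (Nat.fib d) * (120 / w) ^ 2 := by
            have a1 : 1 / Real.log D ≤ 120 / w := by
              rw [div_le_div_iff₀ hlogpos hw0]; linarith
            have a2 : (0 : ℝ) ≤ 1 / Real.log D := by positivity
            have : (1 / Real.log D) ^ 2 ≤ (120 / (w : ℝ)) ^ 2 := pow_le_pow_left₀ a2 a1 2
            exact mul_le_mul_of_nonneg_left this (by linarith)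
        _ = _ := by rw [div_pow]; ring
    -- the error
    have hP : (1 + 2 * Real.log D) ^ 18 ≤ 262144 * (w : ℝ) ^ 18 := by
      have a1 : 1 + 2 * Real.log D ≤ 2 * w := by rw [hlogD]; nlinarith
      calc (1 + 2 * Real.log D) ^ 18 ≤ (2 * w) ^ 18 := by gcongr
        _ = _ := by rw [mul_pow]; norm_num
    have t3 : SE2 d w D (Nat.fib T) ≤ C' / (w : ℝ) ^ 2 := by
      have hLT : 110 * L ≤ T := by omega
      have s1 := SE2_le (d := d) (w := w) (D := D) (t₁ := 110 * L) (by omega) (by omega) T hLT (by omega)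
      set i : ℕ := 2880 * (L + 1) with hi
      have hiw : i * (4 * (110 * L) + 2) ≤ w := by
        have e : i * (4 * (110 * L) + 2) = 2880 * (L + 1) * (440 * L + 2) := by rw [hi]; ring
        rw [e]; exact b1
      have s2 := SE2_base (d := d) (w := w) (D := D) (t₁ := 110 * L) (i := i) (r := w - i * (4 * (110 * L) + 2))
        (by omega) (Nat.add_sub_cancel' hiw).symm
      have c1 : (0.875 : ℝ) ^ (110 * L) ≤ 1048576 / (w : ℝ) ^ 20 := by
        have d1 : (0.875 : ℝ) ^ (110 * L) ≤ (1 / 2 ^ 20) ^ L := by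
          rw [pow_mul]
          apply pow_le_pow_left₀ (by norm_num); norm_num
        have d2 : (w : ℝ) ≤ 2 * 2 ^ L := by
          have : (w : ℝ) ≤ 2 ^ (L + 1) := by exact_mod_cast hn2.le
          rw [pow_succ] at this; linarith
        rw [le_div_iff₀ (by positivity)]
        calc (0.875 : ℝ) ^ (110 * L) * (w : ℝ) ^ 20 ≤ (1 / 2 ^ 20) ^ L * (2 * 2 ^ L) ^ 20 := by gcongr
          _ = 1048576 * ((1 / 2 ^ 20) ^ L * (2 ^ 20) ^ L) := by
            rw [mul_pow, ← pow_mul 2 L 20, mul_comm L 20, pow_mul]; norm_num; ring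
          _ = 1048576 := by rw [← mul_pow]; norm_num
      have c2 : (Nat.fib (110 * L) : ℝ) ^ 4 ≤ (w : ℝ) ^ 440 := by
        have a1 : (Nat.fib (110 * L) : ℝ) ≤ φ ^ (110 * L) := fib_le_phi _
        have a2 : φ ^ (110 * L) ≤ 2 ^ (110 * L) :=
          pow_le_pow_left₀ Real.goldenRatio_pos.le Real.goldenRatio_lt_two.le _
        have a3 : (2 : ℝ) ^ (110 * L) = (2 ^ L) ^ 110 := by rw [← pow_mul, mul_comm]
        have a4 : ((2 : ℝ) ^ L) ≤ w := by exact_mod_cast hn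
        calc (Nat.fib (110 * L) : ℝ) ^ 4 ≤ ((2 ^ L) ^ 110) ^ 4 := by gcongr; linarith
          _ = (2 ^ L) ^ 440 := by rw [← pow_mul]
          _ ≤ _ := by gcongr
      have c3 : (7 / 8 : ℝ) ^ i * (w : ℝ) ^ 480 ≤ 1 := by
        have d1 : (7 / 8 : ℝ) ^ i ≤ (1 / 2) ^ (480 * (L + 1)) := by
          rw [hi, show 2880 * (L + 1) = 6 * (480 * (L + 1)) by ring, pow_mul]
          apply pow_le_pow_left₀ (by norm_num); norm_num
        have d2 : (w : ℝ) ≤ 2 ^ (L + 1) := by exact_mod_cast hn2.le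
        calc (7 / 8 : ℝ) ^ i * (w : ℝ) ^ 480 ≤ (1 / 2) ^ (480 * (L + 1)) * (2 ^ (L + 1)) ^ 480 := by gcongr
          _ = (1 / 2) ^ (480 * (L + 1)) * 2 ^ (480 * (L + 1)) := by
              rw [← pow_mul 2 (L + 1) 480, mul_comm (L + 1) 480]
          _ = 1 := by rw [← mul_pow]; norm_num
      have c4 : (Nat.fib (110 * L) : ℝ) ^ 4 * ((7 / 8 : ℝ) ^ i * (1 + 2 * Real.log D) ^ 18) ≤ 262144 / (w : ℝ) ^ 2 := by
        rw [le_div_iff₀ (by positivity)]
        have d3 : (w : ℝ) ^ 460 ≤ (w : ℝ) ^ 480 := pow_le_pow_right₀ hwr (by norm_num)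
        calc (Nat.fib (110 * L) : ℝ) ^ 4 * ((7 / 8 : ℝ) ^ i * (1 + 2 * Real.log D) ^ 18) * (w : ℝ) ^ 2 ≤
            (w : ℝ) ^ 440 * ((7 / 8 : ℝ) ^ i * (262144 * (w : ℝ) ^ 18)) * (w : ℝ) ^ 2 := by gcongr
          _ = 262144 * ((7 / 8 : ℝ) ^ i * (w : ℝ) ^ 460) := by ring
          _ ≤ 262144 * ((7 / 8 : ℝ) ^ i * (w : ℝ) ^ 480) := by gcongr
          _ ≤ 262144 * 1 := by gcongr
          _ = 262144 := by norm_num
      have c5 : (1 + 2 * Real.log D) ^ 18 * (353600 * 0.875 ^ (110 * L)) ≤ 262144 * 353600 * 1048576 / (w : ℝ) ^ 2 := by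
        have d5 : (0 : ℝ) < (w : ℝ) ^ 20 := by positivity
        calc (1 + 2 * Real.log D) ^ 18 * (353600 * 0.875 ^ (110 * L)) ≤
            (262144 * (w : ℝ) ^ 18) * (353600 * (1048576 / (w : ℝ) ^ 20)) := by gcongr
          _ = 262144 * 353600 * 1048576 / (w : ℝ) ^ 2 := by
              field_simp
      have : C' / (w : ℝ) ^ 2 = 262144 / (w : ℝ) ^ 2 + 262144 * 353600 * 1048576 / (w : ℝ) ^ 2 := by rw [hC']; ring
      rw [this]
      linarith
    have e : (25600 + 14400 + C' + (((w₀ + 160 : ℕ) : ℝ)) ^ 2) * ρ (Nat.fib d) / (w : ℝ) ^ 2 =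
        25600 * ρ (Nat.fib d) / (w : ℝ) ^ 2 + 14400 * ρ (Nat.fib d) / (w : ℝ) ^ 2 + C' * ρ (Nat.fib d) / (w : ℝ) ^ 2 +
          (((w₀ + 160 : ℕ) : ℝ)) ^ 2 * ρ (Nat.fib d) / (w : ℝ) ^ 2 := by
      ring
    rw [e]
    have hw2 : (0 : ℝ) < (w : ℝ) ^ 2 := by positivity
    have q1 : 25600 / (w : ℝ) ^ 2 ≤ 25600 * ρ (Nat.fib d) / (w : ℝ) ^ 2 := by
      apply div_le_div_of_nonneg_right _ hw2.le; linarith
    have q2 : C' / (w : ℝ) ^ 2 ≤ C' * ρ (Nat.fib d) / (w : ℝ) ^ 2 := by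
      apply div_le_div_of_nonneg_right _ hw2.le; nlinarith
    have q3 : 0 ≤ (((w₀ + 160 : ℕ) : ℝ)) ^ 2 * ρ (Nat.fib d) / (w : ℝ) ^ 2 := by positivity
    linarith

end Pool.Agent.K4H3.PG
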