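import Mathlib
import Pool.Agent.K4H3.PG.P7
import Pool.Agent.K4H3.CT.D13
import Pool.Agent.K4H3.FB.B2

/-! From the sieve bound for pairs to the process. -/

set_option autoImplicit false

namespace Pool.Agent.K4H3.PG
open Finset Filter MeasureTheory ProbabilityTheory
open Pool.Agent.K4H3.CT hiding ρ rho_bounds
open Pool.Agent.K4H3.FB (ρ rho_eq rho_one_le fac_le fac_pos romanoffK)
open scoped goldenRatio

section swap
variable {G G' : Type*} [AddCommGroup G] [AddCommGroup G']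

lemma Ev_swap (p p' : ℤ → ℝ) (L : List G) (L' : List G') (f : G → G' → ℝ) :
    Ev p L (fun v => Ev p' L' (fun z => f v z)) = Ev p' L' (fun z => Ev p L (fun v => f v z)) := by
  induction L generalizing f with
  | nil => rfl
  | cons s L ih =>
    simp only [Ev_cons]
    rw [Ev_sum]
    apply sum_congr rfl; intro v _
    rw [Ev_smul, ih (fun x z => f (x + v • s) z)]

end swap

/-- the pairs `(F_{j-1}, F_j)` -/
def PL : ℕ → List (ℤ × ℤ)
  | 0 => []
  | (m + 1) => ((Nat.fib m : ℤ), (Nat.fib (m + 1) : ℤ)) :: PL m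

lemma Rch_PL (m : ℕ) (x : ℤ × ℤ) (hx : x ∈ Rch el (PL m)) : 0 ≤ x.1 ∧ 0 ≤ x.2 := by
  induction m generalizing x with
  | zero =>
    have : x = 0 := hx
    rw [this]; simp
  | succ w ih =>
    obtain ⟨y, hy, v, hv, rfl⟩ := hx
    have h1 := ih y hy
    have h2 := el_ne hv
    have h3 : (0 : ℤ) ≤ Nat.fib w := Int.natCast_nonneg _
    have h4 : (0 : ℤ) ≤ Nat.fib (w + 1) := Int.natCast_nonneg _
    have e1 : (y + v • ((Nat.fib w : ℤ), (Nat.fib (w + 1) : ℤ))).1 = y.1 + v * Nat.fib w := by simp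
    have e2 : (y + v • ((Nat.fib w : ℤ), (Nat.fib (w + 1) : ℤ))).2 = y.2 + v * Nat.fib (w + 1) := by simp
    rw [e1, e2]
    constructor
    · nlinarith [mul_nonneg h2.1 h3]
    · nlinarith [mul_nonneg h2.1 h4]

/-- the linear map sending the pairs `(F_{j-1}, F_j)` to `(F_j, F_{j+d})` -/
def mu (d : ℕ) : ℤ × ℤ →+ ℤ × ℤ where
  toFun v := (v.2, Nat.fib (d + 1) * v.2 + Nat.fib d * v.1)
  map_zero' := by simp
  map_add' v w := by
    simp only [Prod.fst_add, Prod.snd_add, Prod.mk_add_mk]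
    congr 1; ring

lemma PL_map (d m : ℕ) : (PL m).map (mu d) = FL d m := by
  induction m with
  | zero => rfl
  | succ m ih =>
    rw [PL, List.map_cons, ih, FL]
    congr 1
    show ((Nat.fib (m + 1) : ℤ), (Nat.fib (d + 1) : ℤ) * Nat.fib (m + 1) + Nat.fib d * Nat.fib m) = _
    congr 1
    have := Nat.fib_add m d
    rw [show m + 1 + d = m + d + 1 by ring, this]
    push_cast; ring

variable (c : ℕ → ℕ)

/-- the deterministic part of the term before -/
def y1 (n : ℕ) (s : St) : ℕ := match n with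
  | 0 => s.2.2.1
  | n + 1 => yy c n s

lemma y1_step (n : ℕ) (s : St) (v : ℕ) : y1 c n (step c s v) = y1 c (n + 1) s + v * Nat.fib n := by
  cases n with
  | zero =>
    show s.2.2.2 = yy c 0 s + _
    simp [yy]
  | succ n => exact yy_step c n s v

lemma Op_iter2 (m : ℕ) (g : ℕ → ℕ → ℕ → ℝ) (s : St) :
    (Op c)^[m] (fun s' => g s'.1 s'.2.2.1 s'.2.2.2) s =
    Ev el (PL m) (fun v : ℤ × ℤ => g (s.1 + m) ((y1 c m s : ℕ) + v.1).toNat ((yy c m s : ℕ) + v.2).toNat) := by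
  induction m generalizing s with
  | zero =>
    simp [PL, Ev_nil, yy, y1]
  | succ m ih =>
    rw [Function.iterate_succ_apply', Op_eq, ih, ih, ih, PL, Ev_el]
    have h0 : ∀ v : ℕ, ((yy c m (step c s v) : ℕ) : ℤ) = yy c (m + 1) s + v * Nat.fib (m + 1) := by
      intro v
      rw [yy_step]; push_cast; ring
    have h1 : ∀ v : ℕ, ((y1 c m (step c s v) : ℕ) : ℤ) = y1 c (m + 1) s + v * Nat.fib m := by
      intro v
      rw [y1_step]; push_cast; ring
    have h2 : ∀ v : ℕ, (step c s v).1 + m = s.1 + (m + 1) := by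
      intro v
      show s.1 + 1 + m = _
      ring
    simp only [h0, h1, h2]
    have a0 : ∀ x y : ℤ, x + ((0 : ℕ) : ℤ) * y = x := by intro x y; push_cast; ring
    have a1 : ∀ x y : ℤ, x + ((1 : ℕ) : ℤ) * y = x + y := by intro x y; push_cast; ring
    have a2 : ∀ x y : ℤ, x + ((2 : ℕ) : ℤ) * y = x + 2 * y := by intro x y; push_cast; ring
    simp only [a0, a1, a2]
    have e1 : ∀ x : ℤ × ℤ, (x + ((Nat.fib m : ℤ), (Nat.fib (m + 1) : ℤ))).1 = x.1 + Nat.fib m := fun x => rfl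
    have e2 : ∀ x : ℤ × ℤ, (x + ((Nat.fib m : ℤ), (Nat.fib (m + 1) : ℤ))).2 = x.2 + Nat.fib (m + 1) := fun x => rfl
    have e3 : ∀ x : ℤ × ℤ, (x + (2 : ℤ) • ((Nat.fib m : ℤ), (Nat.fib (m + 1) : ℤ))).1 = x.1 + 2 * Nat.fib m := by
      intro x; simp
    have e4 : ∀ x : ℤ × ℤ, (x + (2 : ℤ) • ((Nat.fib m : ℤ), (Nat.fib (m + 1) : ℤ))).2 = x.2 + 2 * Nat.fib (m + 1) := by
      intro x; simp
    simp only [e1, e2, e3, e4, smul_eq_mul]
    have b1 : ∀ x y z : ℤ, x + y + z = x + (z + y) := by intro x y z; ring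
    simp only [b1]

/-- the sum over the forcing -/
def fs (d t : ℕ) : ℕ := ∑ i ∈ range d, Nat.fib (d - i) * c (t + i)

lemma toNat_add {Y : ℕ} {z : ℤ} (hz : 0 ≤ z) : (((Y : ℕ) : ℤ) + z).toNat = Y + z.toNat := by omega

lemma Op_pair (m d : ℕ) (s : St) :
    (Op c)^[m] (fun s' => pr s' * (Op c)^[d] pr s') s =
      Ev el (Fl 0 d) (fun z : ℤ => Ev el (FL d m) (fun x : ℤ × ℤ =>
        (if (((yy c m s : ℕ) : ℤ) + x.1).toNat.Prime then (1 : ℝ) else 0) *
        (if (((Nat.fib (d + 1) * yy c m s + Nat.fib d * y1 c m s + fs c d (s.1 + m) + z.toNat : ℕ) : ℤ) + x.2).toNat.Prime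
          then (1 : ℝ) else 0))) := by
  have e0 : (fun s' : St => pr s' * (Op c)^[d] pr s') = fun s' : St =>
      (fun t a b : ℕ => (if b.Prime then (1 : ℝ) else 0) *
        Ev el (Fl 0 d) (fun x : ℤ => if ((((Nat.fib (d + 1) * b + Nat.fib d * a + fs c d t : ℕ) : ℤ) + x).toNat).Prime
          then (1 : ℝ) else 0)) s'.1 s'.2.2.1 s'.2.2.2 := by
    funext s'
    rw [Op_iter_pr]
    rfl
  rw [e0]
  refine (Op_iter2 c m (fun t a b : ℕ => (if b.Prime then (1 : ℝ) else 0) *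
        Ev el (Fl 0 d) (fun x : ℤ => if ((((Nat.fib (d + 1) * b + Nat.fib d * a + fs c d t : ℕ) : ℤ) + x).toNat).Prime
          then (1 : ℝ) else 0)) s).trans ?_
  simp only [← Ev_mulR]
  rw [Ev_swap]
  apply Ev_congr_R
  intro z hz
  have hz0 := (Rch_el 0 d z hz).1
  rw [← PL_map, Ev_map]
  apply Ev_congr_R
  intro v hv
  obtain ⟨h1, h2⟩ := Rch_PL m v hv
  have e1 : (mu d v).1 = v.2 := rfl
  have e2 : (mu d v).2 = Nat.fib (d + 1) * v.2 + Nat.fib d * v.1 := rfl
  rw [e1, e2]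
  congr 3
  have f1 : (((((yy c m s : ℕ) : ℤ) + v.2).toNat : ℕ) : ℤ) = (yy c m s : ℕ) + v.2 := by omega
  have f2 : (((((y1 c m s : ℕ) : ℤ) + v.1).toNat : ℕ) : ℤ) = (y1 c m s : ℕ) + v.1 := by omega
  have f3 : ((z.toNat : ℕ) : ℤ) = z := by omega
  push_cast [f1, f2, f3]
  ring_nf

/-- **The sieve bound for two terms of the process.** -/
theorem pair_bound : ∃ C : ℝ, 0 < C ∧ ∀ c : ℕ → ℕ, ∀ d : ℕ, 1 ≤ d → ∀ m : ℕ, 1 ≤ m → ∀ s : St,
    (Op c)^[m] (fun s' => pr s' * (Op c)^[d] pr s') s ≤ C * ρ (Nat.fib d) / (m : ℝ) ^ 2 := by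
  obtain ⟨C, hC0, hC⟩ := sieveB2
  refine ⟨C, hC0, fun c d hd m hm s => ?_⟩
  rw [Op_pair]
  have h := Ev_mono el_law.1 (Fl 0 d) _ (fun _ => C * ρ (Nat.fib d) / (m : ℝ) ^ 2) (fun z : ℤ =>
    hC d hd m hm (yy c m s) (Nat.fib (d + 1) * yy c m s + Nat.fib d * y1 c m s + fs c d (s.1 + m) + z.toNat))
  rwa [Ev_const el_law] at h

lemma qB_mark2 (n k : ℕ) (s : St) :
    qB c (n + 1 + (k + 1)) (fun j s' => (j = n → s'.2.2.2.Prime) ∧ (j = n + 1 + k → s'.2.2.2.Prime)) s =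
      (Op c)^[n + 1] (fun s' => pr s' * (Op c)^[k + 1] pr s') s := by
  classical
  induction n generalizing s with
  | zero =>
    rw [show 0 + 1 + (k + 1) = (k + 1) + 1 by ring, qB]
    show _ = ∑ v ∈ range 3, pe v * (pr (step c s v) * (Op c)^[k + 1] pr (step c s v))
    apply sum_congr rfl; intro v _
    congr 1
    have e : ∀ s, qB c (k + 1) (fun j s' => (j + 1 = 0 → s'.2.2.2.Prime) ∧ (j + 1 = 0 + 1 + k → s'.2.2.2.Prime)) s =
        (Op c)^[k + 1] pr s := by
      intro s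
      rw [← qB_mark]
      apply qB_congr
      intro j s'
      constructor
      · intro h hj; exact h.2 (by omega)
      · intro h; exact ⟨fun hj => by omega, fun hj => h (by omega)⟩
    rw [e]
    by_cases hp : (step c s v).2.2.2.Prime
    · have h1 : pr (step c s v) = 1 := if_pos hp
      rw [h1, one_mul, if_pos ⟨fun _ => hp, fun _ => hp⟩]
    · have h1 : pr (step c s v) = 0 := if_neg hp
      rw [h1, zero_mul, if_neg (fun h => hp (h.1 rfl))]
  | succ n ih =>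
    rw [show n + 1 + 1 + (k + 1) = (n + 1 + (k + 1)) + 1 by ring, qB, Function.iterate_succ_apply']
    conv_rhs => unfold Op
    apply sum_congr rfl; intro v _
    congr 1
    rw [if_pos ⟨fun h => by omega, fun h => by omega⟩]
    rw [qB_congr c (n + 1 + (k + 1)) (fun j s' => (j + 1 = n + 1 → s'.2.2.2.Prime) ∧ (j + 1 = n + 1 + 1 + k → s'.2.2.2.Prime))
      (fun j s' => (j = n → s'.2.2.2.Prime) ∧ (j = n + 1 + k → s'.2.2.2.Prime))
      (fun j s' => by
        constructor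
        · rintro ⟨a, b⟩; exact ⟨fun h => a (by omega), fun h => b (by omega)⟩
        · rintro ⟨a, b⟩; exact ⟨fun h => a (by omega), fun h => b (by omega)⟩) (step c s v)]
    exact ih (step c s v)

/-- the average of `ρ (F_d)` is bounded -/
lemma roman : ∃ C : ℝ, 0 ≤ C ∧ ∀ n : ℕ, ∑ d ∈ Icc 1 n, ρ (Nat.fib d) ≤ C * n := by
  obtain ⟨C, hC0, hC⟩ := romanoffK Nat.fib 1 2 (fun s hs => Nat.fib_pos.2 hs)
    (fun s _ => by
      rw [one_mul]
      have h1 : (Nat.fib s : ℝ) ≤ 2 ^ s := (fib_le_phi s).trans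
        (pow_le_pow_left₀ Real.goldenRatio_pos.le Real.goldenRatio_lt_two.le _)
      exact_mod_cast h1)
    (fun p s t _ _ _ h1 h2 => by rw [Nat.fib_gcd]; exact Nat.dvd_gcd h1 h2)
  refine ⟨C, hC0, fun n => (sum_le_sum fun d _ => ?_).trans (hC n)⟩
  unfold ρ
  apply Finset.prod_le_prod
  · intro p hp
    have := fac_pos (Nat.prime_of_mem_primeFactors hp)
    positivity
  · intro p hp
    have := fac_le (Nat.prime_of_mem_primeFactors hp)
    push_cast
    exact this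

section prob
variable {Ω : Type*} [mΩ : MeasurableSpace Ω] (P : Measure Ω) [IsProbabilityMeasure P]
  {e : ℕ → Ω → ℕ} (he : ∀ n, Measurable (e n)) (hi : iIndepFun e P) (hl : Law P e)

include he hi hl

lemma prob_pair (a b n k : ℕ) : P.real {ω | (xs c a b (fun i => e i ω) (n + 2)).Prime ∧
      (xs c a b (fun i => e i ω) (n + 2 + (k + 1))).Prime} =
    (Op c)^[n + 1] (fun s' => pr s' * (Op c)^[k + 1] pr s') (0, 0, a, b) := by
  rw [← qB_mark2, ← transfer c P (n + 1 + (k + 1)) e he hi hl]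
  congr 1
  ext ω
  simp only [Set.mem_ofPred_eq]
  have h1 := (st_eq c a b (fun i => e i ω) (n + 1)).2.2.2
  have h2 := (st_eq c a b (fun i => e i ω) (n + 1 + k + 1)).2.2.2
  rw [show n + 1 + 1 = n + 2 by ring] at h1
  rw [show n + 1 + k + 1 + 1 = n + 2 + (k + 1) by ring] at h2
  constructor
  · rintro ⟨hp, hq⟩ j hj
    refine ⟨fun hjk => ?_, fun hjk => ?_⟩
    · subst hjk
      rw [h1]; exact hp
    · subst hjk
      rw [h2]; exact hq
  · intro hp
    have a1 := (hp n (by omega)).1 rfl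
    have a2 := (hp (n + 1 + k) (by omega)).2 rfl
    rw [h1] at a1
    rw [h2] at a2
    exact ⟨a1, a2⟩

end prob

end Pool.Agent.K4H3.PG
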