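import Mathlib
import Pool.Agent.K4H3.PG.P8

/-! Gaps between the indices of the primes. -/

set_option autoImplicit false

namespace Pool.Agent.K4H3.PG
open Finset Filter MeasureTheory ProbabilityTheory
open Pool.Agent.K4H3.CT hiding ρ rho_bounds
open Pool.Agent.K4H3.FB (ρ rho_one_le)
open scoped goldenRatio

/-- Two primes within a short range: the probability. -/
theorem near_bound : ∃ C : ℝ, 0 < C ∧ ∀ {Ω : Type*} [MeasurableSpace Ω] (P : Measure Ω) [IsProbabilityMeasure P]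
    (e : ℕ → Ω → ℕ) (_ : ∀ n, Measurable (e n)) (_ : iIndepFun e P) (_ : Law P e) (c : ℕ → ℕ) (a b n H : ℕ),
    P.real {ω | (xs c a b (fun i => e i ω) (n + 2)).Prime ∧
      ∃ d, 1 ≤ d ∧ d ≤ H ∧ (xs c a b (fun i => e i ω) (n + 2 + d)).Prime} ≤ C * H / ((n + 2 : ℕ) : ℝ) ^ 2 := by
  obtain ⟨C, hC0, hC⟩ := pair_bound
  obtain ⟨C', hC'0, hC'⟩ := roman
  refine ⟨4 * C * (C' + 1), by positivity, fun {Ω} _ P _ e he hi hl c a b n H => ?_⟩
  have hn0 : (0 : ℝ) < ((n + 1 : ℕ) : ℝ) := by positivity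
  have h1 : P.real {ω | (xs c a b (fun i => e i ω) (n + 2)).Prime ∧
      ∃ d, 1 ≤ d ∧ d ≤ H ∧ (xs c a b (fun i => e i ω) (n + 2 + d)).Prime} ≤
      P.real (⋃ d ∈ Icc 1 H, {ω | (xs c a b (fun i => e i ω) (n + 2)).Prime ∧
        (xs c a b (fun i => e i ω) (n + 2 + d)).Prime}) := by
    apply measureReal_mono
    · rintro ω ⟨h, d, h1, h2, h3⟩
      rw [Set.mem_iUnion₂]
      exact ⟨d, mem_Icc.2 ⟨h1, h2⟩, h, h3⟩
    · exact measure_ne_top _ _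
  refine h1.trans ((measureReal_biUnion_finset_le _ _).trans ?_)
  have h2 : ∀ d ∈ Icc 1 H, P.real {ω | (xs c a b (fun i => e i ω) (n + 2)).Prime ∧
        (xs c a b (fun i => e i ω) (n + 2 + d)).Prime} ≤ C / ((n + 1 : ℕ) : ℝ) ^ 2 * ρ (Nat.fib d) := by
    intro d hd
    rw [mem_Icc] at hd
    obtain ⟨k, rfl⟩ : ∃ k, d = k + 1 := ⟨d - 1, by omega⟩
    rw [prob_pair c P he hi hl a b n k]
    refine (hC c (k + 1) (by omega) (n + 1) (by omega) (0, 0, a, b)).trans (le_of_eq ?_)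
    ring
  refine (sum_le_sum h2).trans ?_
  rw [← mul_sum]
  have h3 := hC' H
  have h4 : 1 / ((n + 1 : ℕ) : ℝ) ^ 2 ≤ 4 / ((n + 2 : ℕ) : ℝ) ^ 2 := by
    rw [div_le_div_iff₀ (by positivity) (by positivity)]
    have : ((n + 2 : ℕ) : ℝ) ≤ 2 * ((n + 1 : ℕ) : ℝ) := by push_cast; linarith [Nat.cast_nonneg (α := ℝ) n]
    have h0 : (0 : ℝ) ≤ ((n + 2 : ℕ) : ℝ) := Nat.cast_nonneg _
    nlinarith
  have hH : (0 : ℝ) ≤ H := Nat.cast_nonneg _
  calc C / ((n + 1 : ℕ) : ℝ) ^ 2 * ∑ d ∈ Icc 1 H, ρ (Nat.fib d) ≤ C / ((n + 1 : ℕ) : ℝ) ^ 2 * (C' * H) := by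
        gcongr
    _ = C * (C' * H) * (1 / ((n + 1 : ℕ) : ℝ) ^ 2) := by ring
    _ ≤ C * ((C' + 1) * H) * (4 / ((n + 2 : ℕ) : ℝ) ^ 2) := by
        gcongr
        linarith
    _ = _ := by ring

/-- **Gaps between the indices of the primes.** -/
theorem gap_ae {Ω : Type*} [MeasurableSpace Ω] (P : Measure Ω) [IsProbabilityMeasure P]
    (e : ℕ → Ω → ℕ) (he : ∀ n, Measurable (e n)) (hi : iIndepFun e P) (hl : Law P e) (c : ℕ → ℕ) (a b : ℕ)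
    (h : ℕ → ℕ) (hh : Summable (fun n => (h n : ℝ) / (n : ℝ) ^ 2)) :
    ∀ᵐ ω ∂P, ∀ᶠ n in atTop, (xs c a b (fun i => e i ω) n).Prime →
      ∀ d, 1 ≤ d → d ≤ h n → ¬ (xs c a b (fun i => e i ω) (n + d)).Prime := by
  obtain ⟨C, hC0, hC⟩ := near_bound
  set A : ℕ → Set Ω := fun n => {ω | (xs c a b (fun i => e i ω) (n + 2)).Prime ∧
      ∃ d, 1 ≤ d ∧ d ≤ h (n + 2) ∧ (xs c a b (fun i => e i ω) (n + 2 + d)).Prime} with hA
  have hsum : Summable (fun n : ℕ => C * ((h (n + 2) : ℝ) / ((n + 2 : ℕ) : ℝ) ^ 2)) :=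
    ((summable_nat_add_iff 2).2 hh).mul_left C
  have h1 : ∑' n, P (A n) ≠ ⊤ := by
    have h2 : ∀ n, P (A n) ≤ ENNReal.ofReal (C * ((h (n + 2) : ℝ) / ((n + 2 : ℕ) : ℝ) ^ 2)) := by
      intro n
      rw [← ofReal_measureReal]
      apply ENNReal.ofReal_le_ofReal
      have := hC P e he hi hl c a b n (h (n + 2))
      rw [mul_div_assoc] at this
      exact this
    exact ne_top_of_le_ne_top hsum.tsum_ofReal_ne_top (ENNReal.tsum_le_tsum h2)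
  filter_upwards [ae_eventually_notMem h1] with ω hω
  rw [eventually_atTop] at hω ⊢
  obtain ⟨N, hN⟩ := hω
  refine ⟨N + 2, fun n hn hp d hd1 hd2 hq => ?_⟩
  obtain ⟨m, rfl⟩ : ∃ m, n = m + 2 := ⟨n - 2, by omega⟩
  exact hN m (by omega) ⟨hp, d, hd1, hd2, hq⟩

end Pool.Agent.K4H3.PG
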